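import Pool.Agent.K7.H10.GR.Trans

/-!
# Uniform bounds for all powers
-/

set_option autoImplicit false
set_option linter.unusedSectionVars false

namespace Pool.Agent.K7.H10.GR

open scoped TensorProduct Topology
open Pool.Agent.H826R3.SM Pool.Agent.TH671.DU Pool.Agent.N86.SQ
open MvPolynomial Filter

/-- all points of a grid -/
theorem grid_lines {k A σ : Type} [Field k] [Infinite k] [CommRing A] [Algebra k A] [Fintype σ]
    (a : σ → A) (m : ℕ) : LinesUpTo k a m ((m + 1) ^ Fintype.card σ) := by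
  classical
  let em := Infinite.natEmbedding k
  let E := (Fintype.equivFin (σ → Fin (m + 1))).trans (finCongr (by
    rw [Fintype.card_fun, Fintype.card_fin]) :
      Fin (Fintype.card (σ → Fin (m + 1))) ≃ Fin ((m + 1) ^ Fintype.card σ))
  refine ⟨fun w v => em (E.symm w v : ℕ), fun e he M hM hM0 => ?_⟩
  have h1 : M = 0 := by
    refine MvPolynomial.eq_zero_of_eval_zero_at_prod_finset M
      (fun _ => (Finset.range (m + 1)).map em) (fun i => ?_) fun x hx => ?_
    · rw [Finset.card_map, Finset.card_range]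
      have h2 := degreeOf_le_totalDegree M i
      have h3 := hM.totalDegree_le
      omega
    · have h2 : ∀ v, ∃ j : Fin (m + 1), em (j : ℕ) = x v := by
        intro v
        obtain ⟨j, hj, hj2⟩ := Finset.mem_map.1 (hx v)
        exact ⟨⟨j, Finset.mem_range.1 hj⟩, hj2⟩
      choose j hj using h2
      have h3 := hM0 (E j)
      have h4 : (fun v => em (E.symm (E j) v : ℕ)) = x := by
        funext v
        rw [E.symm_apply_apply]
        exact hj v
      beta_reduce at h3
      rwa [h4] at h3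
  rw [h1, map_zero]

/-- the bound for the degree -/
def bd (l : ℕ) : ℕ := (l + 2) ^ l * (l + 3)

theorem mdeg_one_le {k A : Type} [Field k] [IsAlgClosed k] [CommRing A] [Algebra k A] {l : ℕ}
    {c : Module.Basis (Fin (l + 1)) k A} (hc : Ad c) : mdeg k (Pow k A 1) ≤ bd l := by
  have : Infinite k := IsAlgClosed.instInfinite
  have := Module.Finite.of_basis c
  have h1 := mdeg_le_lines hc (n := 1) (grid_lines (gens c 1) ((l + 1) * 1))
  rw [Fintype.card_prod, Fintype.card_fin, Fintype.card_fin, one_mul, mul_one] at h1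
  exact h1

theorem mdeg_zero_le {k A : Type} [Field k] [IsAlgClosed k] [CommRing A] [Algebra k A]
    [Module.Finite k A] : mdeg k (Pow k A 0) ≤ 1 := by
  obtain ⟨D, hD⟩ := exists_fam (k := k) A
  have h := fam_pow hD 0
  rw [pow_zero] at h
  exact TH671.DU.mdeg_le h

theorem mdeg_pow_le {k A : Type} [Field k] [IsAlgClosed k] [CommRing A] [Algebra k A]
    [Module.Finite k A] (m q : ℕ) : mdeg k (Pow k A (m * q)) ≤ mdeg k (Pow k A m) ^ q := by
  induction q with
  | zero =>
    rw [mul_zero, pow_zero]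
    exact mdeg_zero_le
  | succ q ih =>
    rw [mul_add, mul_one, pow_succ]
    exact (mdeg_pow_add A (m * q) m).trans (Nat.mul_le_mul_right _ ih)

/-- **Uniform bounds for all powers.** -/
theorem unif_pow (F : Type) [Field F] (l : ℕ) (η : ℝ) (hη : 0 < η) :
    ∃ N : ℕ, ∀ (k : Type) [Field k] [IsAlgClosed k] [Algebra F k] (A : Type) [CommRing A]
      [Algebra k A] (c : Module.Basis (Fin (l + 1)) k A), Ad c →
      ∀ n, N ≤ n → (mdeg k (Pow k A n) : ℝ) ≤ (rate k A + η) ^ n := by
  obtain ⟨N₀, hN₀⟩ := unif_all F l (η / 2) (by linarith)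
  set M : ℝ := (bd l : ℝ) with hM
  have hM1 : 1 ≤ M := by
    rw [hM]
    unfold bd
    exact_mod_cast Nat.succ_le_of_lt (by positivity)
  have hq : 1 < (M + η) / (M + η / 2) := (one_lt_div (by linarith)).2 (by linarith)
  have h1 := (tendsto_pow_atTop_atTop_of_one_lt hq).eventually_ge_atTop (M ^ N₀)
  obtain ⟨N, hN⟩ := eventually_atTop.1 h1
  refine ⟨N, fun k _ _ _ A _ _ c hc n hn => ?_⟩
  have hfin := Module.Finite.of_basis c
  have hloc := hc.isLocal
  obtain ⟨n₁, hn1, hn2, W, hW, hW2⟩ := hN₀ k A c hc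
  have hr := one_le_rate (k := k) A
  have h2 : ((mdeg k (Pow k A n₁) : ℕ) : ℝ) ≤ (rate k A + η / 2) ^ n₁ :=
    le_trans (by exact_mod_cast rate_of_cert c hc hW) hW2
  have hrM : rate k A ≤ M := by
    have h3 := rate_pow_le (k := k) A 1
    rw [pow_one] at h3
    refine h3.trans ?_
    rw [hM]
    exact_mod_cast mdeg_one_le hc
  have hn' : n₁ * (n / n₁) + n % n₁ = n := Nat.div_add_mod n n₁
  have hmod : n % n₁ < n₁ := Nat.mod_lt _ (by omega)
  have h3 : mdeg k (Pow k A n) ≤ mdeg k (Pow k A n₁) ^ (n / n₁) * mdeg k (Pow k A 1) ^ (n % n₁) := by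
    conv_lhs => rw [← hn']
    refine (mdeg_pow_add A _ _).trans (Nat.mul_le_mul (mdeg_pow_le n₁ _) ?_)
    have := mdeg_pow_le (k := k) (A := A) 1 (n % n₁)
    rwa [one_mul] at this
  have h4 : ((mdeg k (Pow k A 1) : ℕ) : ℝ) ^ (n % n₁) ≤ M ^ N₀ := by
    have h5 : ((mdeg k (Pow k A 1) : ℕ) : ℝ) ≤ M := by
      rw [hM]
      exact_mod_cast mdeg_one_le hc
    exact (pow_le_pow_left₀ (Nat.cast_nonneg _) h5 _).trans
      (pow_le_pow_right₀ hM1 (by omega))
  have h5 : ((mdeg k (Pow k A n₁) : ℕ) : ℝ) ^ (n / n₁) ≤ (rate k A + η / 2) ^ n := by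
    refine (pow_le_pow_left₀ (Nat.cast_nonneg _) h2 _).trans ?_
    rw [← pow_mul]
    exact pow_le_pow_right₀ (by linarith) (by omega)
  have h6 : M ^ N₀ ≤ ((rate k A + η) / (rate k A + η / 2)) ^ n := by
    refine (hN n hn).trans (pow_le_pow_left₀ (by positivity) ?_ n)
    rw [div_le_div_iff₀ (by linarith) (by linarith)]
    nlinarith
  calc (mdeg k (Pow k A n) : ℝ) ≤ ((mdeg k (Pow k A n₁) : ℕ) : ℝ) ^ (n / n₁) *
        ((mdeg k (Pow k A 1) : ℕ) : ℝ) ^ (n % n₁) := by exact_mod_cast h3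
    _ ≤ (rate k A + η / 2) ^ n * M ^ N₀ := mul_le_mul h5 h4 (by positivity) (by positivity)
    _ ≤ (rate k A + η / 2) ^ n * ((rate k A + η) / (rate k A + η / 2)) ^ n :=
        mul_le_mul_of_nonneg_left h6 (by positivity)
    _ = (rate k A + η) ^ n := by
        rw [← mul_pow, mul_div_cancel₀ _ (by linarith : rate k A + η / 2 ≠ 0)]

end Pool.Agent.K7.H10.GR
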