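import Pool.Agent.N86.SQ.Clo3

/-!
# Algebras with adapted bases and change of rings
-/

set_option autoImplicit false
set_option linter.unusedSectionVars false

namespace Pool.Agent.K7.H10.GR

open scoped TensorProduct
open Pool.Agent.N86.SQ (PIdx)

section defs

variable {R E : Type} [CommRing R] [CommRing E] [Algebra R E]

/-- coordinates of the monomials in the basis elements of positive index -/
noncomputable def TT {l : ℕ} (c : Module.Basis (Fin (l + 1)) R E) (t : Fin l → ℕ)
    (j : Fin (l + 1)) : R := c.repr (∏ v, c v.succ ^ t v) j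

/-- structure constants and coordinates of the unit -/
noncomputable def parR {d : ℕ} (c : Module.Basis (Fin d) R E) : PIdx d → R :=
  Sum.elim (fun z => c.repr (c z.1 * c z.2.1) z.2.2) (fun i => c.repr 1 i)

/-- adapted basis: the first element is the unit, all products of `l + 1` other elements vanish -/
def Ad {l : ℕ} (c : Module.Basis (Fin (l + 1)) R E) : Prop :=
  c 0 = 1 ∧ ∀ f : Fin (l + 1) → Fin l, ∏ i, c (f i).succ = 0

end defs

section bc

variable {R E : Type} [CommRing R] [CommRing E] [Algebra R E] (L : Type) [CommRing L]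
  [Algebra R L] {ι : Type} [Fintype ι]

theorem bc_repr (c : Module.Basis ι R E) (x : E) (j : ι) :
    (c.baseChange L).repr ((1 : L) ⊗ₜ[R] x) j = algebraMap R L (c.repr x j) := by
  rw [Module.Basis.baseChange_repr_tmul, Algebra.smul_def, mul_one]

theorem TT_bc {l : ℕ} (c : Module.Basis (Fin (l + 1)) R E) (t : Fin l → ℕ) (j : Fin (l + 1)) :
    TT (c.baseChange L) t j = algebraMap R L (TT c t j) := by
  have h : (∏ v, (c.baseChange L) v.succ ^ t v : L ⊗[R] E) =
      (1 : L) ⊗ₜ[R] ∏ v, c v.succ ^ t v := by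
    have h1 : ((1 : L) ⊗ₜ[R] ∏ v, c v.succ ^ t v : L ⊗[R] E) =
        Algebra.TensorProduct.includeRight (∏ v, c v.succ ^ t v) := rfl
    rw [h1, map_prod]
    refine Finset.prod_congr rfl fun v _ => ?_
    rw [map_pow, Module.Basis.baseChange_apply]
    rfl
  unfold TT
  rw [h, bc_repr]

theorem parR_bc {d : ℕ} (c : Module.Basis (Fin d) R E) (z : PIdx d) :
    parR (c.baseChange L) z = algebraMap R L (parR c z) := by
  rcases z with z | z
  · change (c.baseChange L).repr ((c.baseChange L) z.1 * (c.baseChange L) z.2.1) z.2.2 = _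
    rw [Module.Basis.baseChange_apply, Module.Basis.baseChange_apply,
      Algebra.TensorProduct.tmul_mul_tmul, mul_one, bc_repr]
    rfl
  · change (c.baseChange L).repr 1 z = _
    rw [Algebra.TensorProduct.one_def, bc_repr]
    rfl

theorem Ad_bc {l : ℕ} {c : Module.Basis (Fin (l + 1)) R E} (h : Ad c) : Ad (c.baseChange L) := by
  refine ⟨?_, fun f => ?_⟩
  · rw [Module.Basis.baseChange_apply, h.1]
    rfl
  · have h1 : (∏ i, (c.baseChange L) (f i).succ : L ⊗[R] E) =
        Algebra.TensorProduct.includeRight (∏ i, c (f i).succ) := by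
      rw [map_prod]
      refine Finset.prod_congr rfl fun i _ => ?_
      rw [Module.Basis.baseChange_apply]
      rfl
    rw [h1, h.2, map_zero]

end bc

section field

variable {k E : Type} [Field k] [CommRing E] [Algebra k E] {l : ℕ}
  {c : Module.Basis (Fin (l + 1)) k E}

theorem parR_eq {d : ℕ} (c : Module.Basis (Fin d) k E) : parR c = Pool.Agent.N86.SQ.par c := rfl

theorem Ad.gen (h : Ad c) : Algebra.adjoin k (Set.range fun v : Fin l => c v.succ) = ⊤ := by
  rw [eq_top_iff]
  rintro x -
  rw [← c.sum_repr x]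
  refine Subalgebra.sum_mem _ fun i _ => Subalgebra.smul_mem _ ?_ _
  refine Fin.cases ?_ (fun v => ?_) i
  · rw [h.1]
    exact Subalgebra.one_mem _
  · exact Algebra.subset_adjoin ⟨v, rfl⟩

theorem span_pow_eq_bot {A : Type} [CommRing A] {σ : Type} (a : σ → A) (n : ℕ)
    (h : ∀ f : Fin n → σ, ∏ i, a (f i) = 0) : Ideal.span (Set.range a) ^ n = ⊥ := by
  have key : ∀ n : ℕ, Ideal.span (Set.range a) ^ n ≤
      Ideal.span (Set.range fun f : Fin n → σ => ∏ i, a (f i)) := by
    intro n
    induction n with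
    | zero =>
      rw [pow_zero, Ideal.one_eq_top]
      intro x _
      have h1 : (1 : A) ∈ Ideal.span (Set.range fun f : Fin 0 → σ => ∏ i, a (f i)) :=
        Ideal.subset_span ⟨fun i => i.elim0, by simp⟩
      rw [(Ideal.eq_top_iff_one _).2 h1]
      trivial
    | succ n ih =>
      rw [pow_succ]
      refine (Ideal.mul_mono_left ih).trans ?_
      rw [Ideal.span_mul_span, Ideal.span_le]
      rintro _ ⟨_, ⟨f, rfl⟩, _, ⟨v, rfl⟩, rfl⟩
      refine Ideal.subset_span ⟨Fin.snoc f v, ?_⟩
      change ∏ i, a ((Fin.snoc f v : Fin (n + 1) → σ) i) = (∏ i, a (f i)) * a v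
      rw [Fin.prod_univ_castSucc]
      simp [Fin.snoc_castSucc, Fin.snoc_last]
  rw [eq_bot_iff]
  refine (key n).trans ?_
  rw [Ideal.span_le]
  rintro _ ⟨f, rfl⟩
  exact h f

theorem Ad.nil (h : Ad c) : Ideal.span (Set.range fun v : Fin l => c v.succ) ^ (l + 1) = ⊥ :=
  span_pow_eq_bot _ _ h.2

theorem Ad.isLocal (h : Ad c) : IsLocalRing E := by
  have hnt : Nontrivial E := ⟨⟨c 0, 0, c.ne_zero 0⟩⟩
  have hn : ∀ x ∈ Ideal.span (Set.range fun v : Fin l => c v.succ), IsNilpotent x := by
    intro x hx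
    refine ⟨l + 1, ?_⟩
    have := Ideal.pow_mem_pow hx (l + 1)
    rw [h.nil] at this
    exact this
  refine IsLocalRing.of_isUnit_or_isUnit_one_sub_self fun x => ?_
  have h1 : x = algebraMap k E (c.repr x 0) + ∑ v : Fin l, c.repr x v.succ • c v.succ := by
    conv_lhs => rw [← c.sum_repr x, Fin.sum_univ_succ, h.1, ← Algebra.algebraMap_eq_smul_one]
  have h2 : IsNilpotent (∑ v : Fin l, c.repr x v.succ • c v.succ) := by
    refine hn _ (Ideal.sum_mem _ fun v _ => ?_)
    rw [Algebra.smul_def]
    exact Ideal.mul_mem_left _ _ (Ideal.subset_span ⟨v, rfl⟩)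
  by_cases h0 : c.repr x 0 = 0
  · right
    rw [h1, h0, map_zero, zero_add]
    exact h2.isUnit_one_sub
  · left
    rw [h1]
    exact (h2.isUnit_add_left_of_commute ((Ne.isUnit h0).map (algebraMap k E)) (Commute.all _ _))

end field

end Pool.Agent.K7.H10.GR
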