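import Mathlib

/-!
# A common extension field
-/

set_option autoImplicit false
set_option linter.unusedSectionVars false

namespace Pool.Agent.K7.H10.GR

/-- extension fields of `F` embed into a large algebraically closed field -/
theorem exists_big (F : Type) [Field F] {I : Type} (K : I → Type) [∀ i, Field (K i)]
    [∀ i, Algebra F (K i)] : ∃ (Ω : Type) (_ : Field Ω) (_ : IsAlgClosed Ω) (_ : Algebra F Ω),
      ∀ i, Nonempty (K i →ₐ[F] Ω) := by
  let P := MvPolynomial (Σ i, K i) F
  let Ω := AlgebraicClosure (FractionRing P)
  refine ⟨Ω, inferInstance, inferInstance, inferInstance, fun i => ?_⟩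
  obtain ⟨ι, x, hx⟩ := exists_isTranscendenceBasis' F (K i)
  let g : MvPolynomial ι F →ₐ[F] P := MvPolynomial.rename fun s => (⟨i, x s⟩ : Σ i, K i)
  have hg : Function.Injective g := by
    refine MvPolynomial.rename_injective _ fun a b hab => ?_
    have h1 : x a = x b := by
      have := Sigma.mk.inj hab
      exact eq_of_heq this.2
    exact hx.1.injective h1
  let g2 : P →ₐ[F] Ω := IsScalarTower.toAlgHom F P Ω
  have hg2 : Function.Injective g2 := by
    have h1 : Function.Injective (algebraMap P (FractionRing P)) := IsFractionRing.injective P _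
    have h2 : Function.Injective (algebraMap (FractionRing P) Ω) :=
      FaithfulSMul.algebraMap_injective _ _
    have h3 : algebraMap P Ω = (algebraMap (FractionRing P) Ω).comp (algebraMap P _) :=
      IsScalarTower.algebraMap_eq _ _ _
    intro a b hab
    have h4 : algebraMap P Ω a = algebraMap P Ω b := hab
    rw [h3] at h4
    exact h1 (h2 h4)
  let R := Algebra.adjoin F (Set.range x)
  let f : R →ₐ[F] Ω := (g2.comp g).comp hx.1.aevalEquiv.symm.toAlgHom
  have hf : Function.Injective f := (hg2.comp hg).comp hx.1.aevalEquiv.symm.injective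
  let _ : Algebra R Ω := f.toRingHom.toAlgebra
  have h1 : FaithfulSMul R Ω := (faithfulSMul_iff_algebraMap_injective _ _).mpr hf
  have h2 : FaithfulSMul R (K i) := (faithfulSMul_iff_algebraMap_injective _ _).mpr
    Subtype.val_injective
  have : Module.IsTorsionFree R (K i) := inferInstance
  have : Module.IsTorsionFree R Ω := inferInstance
  have h3 : Algebra.IsAlgebraic R (K i) := hx.isAlgebraic
  let j : K i →ₐ[R] Ω := IsAlgClosed.lift
  refine ⟨{ j.toRingHom with commutes' := fun r => ?_ }⟩
  have h4 : j (algebraMap R (K i) (algebraMap F R r)) = algebraMap R Ω (algebraMap F R r) :=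
    j.commutes _
  have h5 : algebraMap R Ω (algebraMap F R r) = f (algebraMap F R r) := rfl
  rw [h5, f.commutes] at h4
  exact h4

end Pool.Agent.K7.H10.GR
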