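import Pool.Agent.K7.H10.GR.Bas

/-!
# Certificates for bounds of the growth rate
-/

set_option autoImplicit false
set_option linter.unusedSectionVars false

namespace Pool.Agent.K7.H10.GR

open scoped TensorProduct
open Pool.Agent.H826R3.SM Pool.Agent.TH671.DU Pool.Agent.N86.SQ
open MvPolynomial

/-- There are points `p w` and coefficients `cf J e w` which represent the coordinates of the
monomials of degree at most `m` in the `n`-th power of the algebra with the coordinates `T`. -/
def Cert (K : Type) [CommRing K] {l : ℕ} (T : (Fin l → ℕ) → Fin (l + 1) → K) (n m W : ℕ) : Prop :=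
  ∃ (p : Fin W → Fin n × Fin l → K) (cf : (Fin n → Fin (l + 1)) → Fin (m + 1) → Fin W → K),
    ∀ (s : Fin n × Fin l →₀ ℕ) (hs : s.degree ≤ m) (J : Fin n → Fin (l + 1)),
      ∏ i, T (fun v => s (i, v)) (J i) =
        ∑ w, cf J ⟨s.degree, Nat.lt_succ_of_le hs⟩ w * ∏ v, p w v ^ s v

section

variable {k E : Type} [Field k] [CommRing E] [Algebra k E] {l : ℕ}
  (c : Module.Basis (Fin (l + 1)) k E) (n : ℕ)

/-- the standard generators of the powers -/
noncomputable def gens (v : Fin n × Fin l) : Pow k E n := sg k E v.1 (c v.2.succ)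

theorem aeval_gens (s : Fin n × Fin l →₀ ℕ) (r : k) :
    aeval (gens c n) (monomial s r) =
      r • (PiTensorProduct.tprod k fun i => ∏ v, c (Fin.succ v) ^ s (i, v) : Pow k E n) := by
  classical
  rw [aeval_monomial, ← Algebra.smul_def]
  congr 1
  rw [Finsupp.prod_fintype _ _ (fun _ => pow_zero _), tprod_eq_prod_single,
    Fintype.prod_prod_type]
  refine Finset.prod_congr rfl fun i _ => ?_
  unfold gens
  change ∏ v, sg k E i (c (Fin.succ v)) ^ s (i, v) = sg k E i _
  rw [map_prod]
  simp only [map_pow]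

theorem repr_gens (s : Fin n × Fin l →₀ ℕ) (r : k) (J : Fin n → Fin (l + 1)) :
    (Basis.piTensorProduct (fun _ : Fin n => c)).repr (aeval (gens c n) (monomial s r)) J =
      r * ∏ i, TT c (fun v => s (i, v)) (J i) := by
  rw [aeval_gens, map_smul, Finsupp.smul_apply, smul_eq_mul,
    Basis.piTensorProduct_repr_tprod_apply]
  rfl

theorem cert_of_lines {m W : ℕ} (h : LinesUpTo k (gens c n) m W) : Cert k (TT c) n m W := by
  obtain ⟨p, hp⟩ := h
  choose cf hcf using fun (J : Fin n → Fin (l + 1)) (e : Fin (m + 1)) =>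
    exists_coeffs (Nat.lt_succ_iff.1 e.2) hp ((Basis.piTensorProduct (fun _ : Fin n => c)).coord J)
  refine ⟨p, cf, fun s hs J => ?_⟩
  have h1 := hcf J ⟨s.degree, Nat.lt_succ_of_le hs⟩ (monomial s 1) (isHomogeneous_monomial 1 rfl)
  rw [Module.Basis.coord_apply, repr_gens, one_mul] at h1
  rw [h1]
  refine Finset.sum_congr rfl fun w _ => ?_
  congr 1
  rw [eval_monomial, one_mul, Finsupp.prod_fintype _ _ (fun _ => pow_zero _)]

theorem lines_of_cert {m W : ℕ} (h : Cert k (TT c) n m W) : LinesUpTo k (gens c n) m W := by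
  classical
  obtain ⟨p, cf, h⟩ := h
  refine ⟨p, fun e he M hM hM0 => ?_⟩
  apply (Basis.piTensorProduct (fun _ : Fin n => c)).repr.injective
  rw [map_zero]
  ext J
  rw [Finsupp.zero_apply, M.as_sum, map_sum, map_sum, Finsupp.finsetSum_apply]
  have h1 : ∀ s ∈ M.support, (Basis.piTensorProduct (fun _ : Fin n => c)).repr
      (aeval (gens c n) (monomial s (coeff s M))) J =
        ∑ w, cf J ⟨e, Nat.lt_succ_of_le he⟩ w * (coeff s M * ∏ v, p w v ^ s v) := by
    intro s hs
    have hse : s.degree = e := by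
      rw [Finsupp.degree_eq_weight_one]
      exact hM (mem_support_iff.1 hs)
    subst hse
    rw [repr_gens, h s he J, Finset.mul_sum]
    refine Finset.sum_congr rfl fun w _ => ?_
    ring
  rw [Finset.sum_congr rfl h1, Finset.sum_comm]
  refine Finset.sum_eq_zero fun w _ => ?_
  rw [← Finset.mul_sum]
  have h2 := hM0 w
  rw [M.as_sum, map_sum] at h2
  have h3 : ∀ s ∈ M.support, eval (p w) (monomial s (coeff s M)) =
      coeff s M * ∏ v, p w v ^ s v := by
    intro s _
    rw [eval_monomial, Finsupp.prod_fintype _ _ (fun _ => pow_zero _)]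
  rw [Finset.sum_congr rfl h3] at h2
  rw [h2, mul_zero]

end

/-- **Descent of certificates** (Nullstellensatz) -/
theorem cert_descent {k L : Type} [Field k] [IsAlgClosed k] [Field L] [Algebra k L] {l : ℕ}
    (T : (Fin l → ℕ) → Fin (l + 1) → k) {n m W : ℕ}
    (h : Cert L (fun t j => algebraMap k L (T t j)) n m W) : Cert k T n m W := by
  classical
  obtain ⟨p, cf, h⟩ := h
  let S : Set L := (Set.range fun z : Fin W × (Fin n × Fin l) => p z.1 z.2) ∪
    Set.range fun z : (Fin n → Fin (l + 1)) × Fin (m + 1) × Fin W => cf z.1 z.2.1 z.2.2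
  have hS : S.Finite := (Set.finite_range _).union (Set.finite_range _)
  let B := Algebra.adjoin k S
  have hft : Algebra.FiniteType k B :=
    ⟨(Subalgebra.fg_top _).2 ⟨hS.toFinset, by rw [Set.Finite.coe_toFinset]⟩⟩
  obtain ⟨M, hM⟩ := Ideal.exists_maximal B
  have hfin : Module.Finite k (B ⧸ M) := by
    have : Algebra.FiniteType k (B ⧸ M) := inferInstance
    let _ : Field (B ⧸ M) := Ideal.Quotient.field M
    exact finite_of_finite_type_of_isJacobsonRing k (B ⧸ M)
  let _ : Field (B ⧸ M) := Ideal.Quotient.field M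
  have hbij : Function.Bijective (algebraMap k (B ⧸ M)) :=
    IsAlgClosed.algebraMap_bijective_of_isIntegral
  let ee : k ≃ₐ[k] (B ⧸ M) := AlgEquiv.ofBijective (Algebra.ofId k (B ⧸ M)) hbij
  let φ : B →ₐ[k] k := ee.symm.toAlgHom.comp (Ideal.Quotient.mkₐ k M)
  let p' : Fin W → Fin n × Fin l → B := fun w v =>
    ⟨p w v, Algebra.subset_adjoin (Or.inl ⟨(w, v), rfl⟩)⟩
  let cf' : (Fin n → Fin (l + 1)) → Fin (m + 1) → Fin W → B := fun J e w =>
    ⟨cf J e w, Algebra.subset_adjoin (Or.inr ⟨(J, e, w), rfl⟩)⟩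
  refine ⟨fun w v => φ (p' w v), fun J e w => φ (cf' J e w), fun s hs J => ?_⟩
  have h1 : (algebraMap k B (∏ i, T (fun v => s (i, v)) (J i)) : B) =
      ∑ w, cf' J ⟨s.degree, Nat.lt_succ_of_le hs⟩ w * ∏ v, p' w v ^ s v := by
    apply Subtype.ext
    rw [AddSubmonoidClass.coe_finsetSum]
    have h2 := h s hs J
    have h3 : ((algebraMap k B (∏ i, T (fun v => s (i, v)) (J i)) : B) : L) =
        ∏ i, algebraMap k L (T (fun v => s (i, v)) (J i)) := by
      rw [← map_prod]
      rfl
    rw [h3, h2]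
    refine Finset.sum_congr rfl fun w _ => ?_
    have h5 : ((∏ v, p' w v ^ s v : B) : L) = ∏ v, p w v ^ s v := by
      change B.val (∏ v, p' w v ^ s v) = _
      rw [map_prod]
      simp only [map_pow]
      rfl
    rw [Subalgebra.coe_mul, h5]
  have h4 := congrArg φ h1
  rw [AlgHom.commutes, map_sum] at h4
  change _ = _ at h4
  rw [show algebraMap k k (∏ i, T (fun v => s (i, v)) (J i)) =
    ∏ i, T (fun v => s (i, v)) (J i) from rfl] at h4
  rw [h4]
  refine Finset.sum_congr rfl fun w _ => ?_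
  rw [map_mul, map_prod]
  simp only [map_pow]

end Pool.Agent.K7.H10.GR
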