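import Pool.Agent.K7.H10.GR.Bas

/-!
# Adapted bases of local algebras
-/

set_option autoImplicit false
set_option linter.unusedSectionVars false

namespace Pool.Agent.K7.H10.GR

variable {k : Type} [Field k] [IsAlgClosed k] {A : Type} [CommRing A] [Algebra k A]
  [Module.Finite k A] [IsLocalRing A]

theorem pow_max (l : ℕ) (hd : Module.finrank k A = l + 1) :
    IsLocalRing.maximalIdeal A ^ (l + 1) = ⊥ := by
  set M := IsLocalRing.maximalIdeal A with hM
  have hnoeth : IsNoetherianRing A := IsNoetherianRing.of_finite k A
  have key : ∀ j : ℕ, Module.finrank k ((M ^ j).restrictScalars k) + j ≤ l + 1 ∨ M ^ j = ⊥ := by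
    intro j
    induction j with
    | zero =>
      left
      rw [← hd, add_zero]
      exact Submodule.finrank_le _
    | succ j ih =>
      by_cases h0 : M ^ j = ⊥
      · right
        rw [pow_succ, h0, Ideal.bot_mul]
      · rcases ih with ih | ih
        · left
          have hlt : (M ^ (j + 1)).restrictScalars k < (M ^ j).restrictScalars k := by
            refine lt_of_le_of_ne (fun x hx => Ideal.pow_le_pow_right (Nat.le_succ j) hx) ?_
            intro heq
            apply h0
            refine Submodule.eq_bot_of_le_smul_of_le_jacobson_bot M (M ^ j)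
              (IsNoetherian.noetherian _) ?_ ?_
            · rw [smul_eq_mul, ← pow_succ']
              intro x hx
              have h1 : x ∈ (M ^ j).restrictScalars k := hx
              rw [← heq] at h1
              exact h1
            · exact (IsLocalRing.jacobson_eq_maximalIdeal ⊥ bot_ne_top).symm.le
          have := Submodule.finrank_lt_finrank_of_lt hlt
          omega
        · exact absurd ih h0
  rcases key (l + 1) with h | h
  · have h1 : Module.finrank k ((M ^ (l + 1)).restrictScalars k) = 0 := by omega
    have h2 := Submodule.finrank_eq_zero.1 h1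
    rw [eq_bot_iff]
    intro x hx
    have h3 : x ∈ (M ^ (l + 1)).restrictScalars k := hx
    rw [h2] at h3
    exact h3
  · exact h

theorem exists_ad (l : ℕ) (hd : Module.finrank k A = l + 1) :
    ∃ c : Module.Basis (Fin (l + 1)) k A, Ad c := by
  set M : Ideal A := IsLocalRing.maximalIdeal A with hM
  have hMmax : M.IsMaximal := IsLocalRing.maximalIdeal.isMaximal A
  let _ : Field (A ⧸ M) := Ideal.Quotient.field M
  have hbij : Function.Bijective (algebraMap k (A ⧸ M)) :=
    IsAlgClosed.algebraMap_bijective_of_isIntegral
  let W : Submodule k A := M.restrictScalars k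
  have h1W : (1 : A) ∉ W := fun h => (Ideal.ne_top_iff_one M).1 hMmax.ne_top h
  have hspan : ∀ x : A, ∃ r : k, x - algebraMap k A r ∈ W := by
    intro x
    obtain ⟨r, hr⟩ := hbij.2 (Ideal.Quotient.mk M x)
    refine ⟨r, ?_⟩
    change x - algebraMap k A r ∈ M
    rw [← Ideal.Quotient.eq, ← hr]
    rfl
  -- the span of the unit is a complement
  have hfin : Module.finrank k W = l := by
    have h2 : IsCompl (Submodule.span k {(1 : A)}) W := by
      constructor
      · rw [Submodule.disjoint_def]
        intro x hx hxW
        obtain ⟨r, rfl⟩ := Submodule.mem_span_singleton.1 hx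
        by_cases hr : r = 0
        · rw [hr, zero_smul]
        · exfalso
          apply h1W
          have := W.smul_mem r⁻¹ hxW
          rwa [smul_smul, inv_mul_cancel₀ hr, one_smul] at this
      · rw [codisjoint_iff, eq_top_iff]
        rintro x -
        obtain ⟨r, hr⟩ := hspan x
        have : x = algebraMap k A r + (x - algebraMap k A r) := by ring
        rw [this]
        refine Submodule.add_mem_sup ?_ hr
        rw [Algebra.algebraMap_eq_smul_one]
        exact Submodule.mem_span_singleton.2 ⟨r, rfl⟩
    have h3 := Submodule.finrank_add_eq_of_isCompl h2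
    have hnz : (1 : A) ≠ 0 := one_ne_zero
    rw [finrank_span_singleton hnz, hd] at h3
    omega
  let b : Module.Basis (Fin l) k W := Module.finBasisOfFinrankEq k W hfin
  let c : Module.Basis (Fin (l + 1)) k A := Module.Basis.mkFinCons (1 : A) b
    (by
      intro r x hx h
      by_contra hr
      apply h1W
      have h2 : (1 : A) = -(r⁻¹ • x) := by
        have h3 : r⁻¹ • (r • (1 : A) + x) = 0 := by rw [h, smul_zero]
        rw [smul_add, smul_smul, inv_mul_cancel₀ hr, one_smul] at h3
        exact eq_neg_of_add_eq_zero_left h3
      rw [h2]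
      exact W.neg_mem (W.smul_mem _ hx))
    (by
      intro x
      obtain ⟨r, hr⟩ := hspan x
      refine ⟨-r, ?_⟩
      rw [neg_smul, ← sub_eq_add_neg, ← Algebra.algebraMap_eq_smul_one]
      exact hr)
  have hc0 : c 0 = 1 := by
    rw [Module.Basis.coe_mkFinCons]
    rfl
  have hcs : ∀ v : Fin l, c v.succ = b v := by
    intro v
    rw [Module.Basis.coe_mkFinCons, Fin.cons_succ]
    rfl
  refine ⟨c, hc0, fun f => ?_⟩
  have h4 : ∏ i, c (f i).succ ∈ M ^ (l + 1) := by
    have h5 : ∏ i : Fin (l + 1), c (f i).succ ∈ ∏ _i : Fin (l + 1), M := by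
      refine Ideal.prod_mem_prod fun i _ => ?_
      rw [hcs]
      exact (b (f i)).2
    rwa [Finset.prod_const, Finset.card_univ, Fintype.card_fin] at h5
  rw [pow_max l hd] at h4
  exact h4

end Pool.Agent.K7.H10.GR
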