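import Pool.Agent.K7.H10.GR.Step
import Pool.Agent.K7.H10.GR.Loc

/-!
# Specialization of the structure constants
-/

set_option autoImplicit false
set_option linter.unusedSectionVars false

namespace Pool.Agent.K7.H10.GR

open scoped TensorProduct Topology
open Pool.Agent.H826R3.SM Pool.Agent.TH671.DU Pool.Agent.N86.SQ
open MvPolynomial

section spec

variable {k Ω : Type} [Field k] [Field Ω] [Algebra k Ω] {A : Type} [CommRing A] [Algebra Ω A]
  {l : ℕ} (c : Module.Basis (Fin (l + 1)) Ω A)

variable (k) in
/-- the evaluation in the structure constants -/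
noncomputable def evp : MvPolynomial (PIdx (l + 1)) k →ₐ[k] Ω := aeval (parR c)

variable (k) in
/-- the ring generated by the structure constants -/
noncomputable abbrev RR : Subalgebra k Ω := (evp k c).range

theorem par_mem (z : PIdx (l + 1)) : parR c z ∈ RR k c := ⟨X z, aeval_X _ _⟩

theorem repr_mul (x y : A) (j : Fin (l + 1)) : c.repr (x * y) j =
    ∑ i, ∑ i', c.repr x i * c.repr y i' * parR c (Sum.inl (i, i', j)) := by
  conv_lhs => rw [← c.sum_repr x, ← c.sum_repr y, Finset.sum_mul_sum, map_sum,
    Finsupp.finsetSum_apply]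
  refine Finset.sum_congr rfl fun i _ => ?_
  rw [map_sum, Finsupp.finsetSum_apply]
  refine Finset.sum_congr rfl fun i' _ => ?_
  rw [smul_mul_smul_comm, map_smul, Finsupp.smul_apply, smul_eq_mul]
  rfl

variable (k) in
/-- the elements with coordinates in this ring -/
noncomputable def SA : Subalgebra (RR k c) A where
  carrier := {x | ∀ j, c.repr x j ∈ RR k c}
  mul_mem' := by
    intro x y hx hy j
    rw [repr_mul]
    exact Subalgebra.sum_mem _ fun i _ => Subalgebra.sum_mem _ fun i' _ =>
      Subalgebra.mul_mem _ (Subalgebra.mul_mem _ (hx i) (hy i')) (par_mem c _)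
  add_mem' := by
    intro x y hx hy j
    rw [map_add, Finsupp.add_apply]
    exact Subalgebra.add_mem _ (hx j) (hy j)
  algebraMap_mem' := by
    intro r j
    have h1 : algebraMap (RR k c) A r = (r : Ω) • (1 : A) := by
      rw [Algebra.smul_def, mul_one]
      rfl
    rw [h1, map_smul, Finsupp.smul_apply, smul_eq_mul]
    exact Subalgebra.mul_mem _ r.2 (par_mem c (Sum.inr j))

theorem smul_SA (r : RR k c) (x : A) : r • x = (r : Ω) • x := rfl

variable (k) in
/-- coordinates -/
noncomputable def eSA : SA k c ≃ₗ[RR k c] (Fin (l + 1) → RR k c) where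
  toFun x j := ⟨c.repr x.1 j, x.2 j⟩
  map_add' x y := by
    funext j
    apply Subtype.ext
    change c.repr (x.1 + y.1) j = _
    rw [map_add]
    rfl
  map_smul' r x := by
    funext j
    apply Subtype.ext
    change c.repr ((r : Ω) • x.1) j = _
    rw [map_smul]
    rfl
  invFun f := ⟨∑ j, (f j : Ω) • c j, fun j => by
    rw [c.repr_sum_self]
    exact (f j).2⟩
  left_inv x := Subtype.ext (c.sum_repr x.1)
  right_inv f := by
    funext j
    apply Subtype.ext
    change c.repr (∑ j, (f j : Ω) • c j) j = f j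
    rw [c.repr_sum_self]

variable (k) in
/-- the basis -/
noncomputable def cR : Module.Basis (Fin (l + 1)) (RR k c) (SA k c) :=
  Module.Basis.ofEquivFun (eSA k c)

theorem cR_repr (x : SA k c) (j : Fin (l + 1)) :
    (((cR k c).repr x j : RR k c) : Ω) = c.repr x.1 j := rfl

theorem cR_apply (j : Fin (l + 1)) : ((cR k c j : SA k c) : A) = c j := by
  classical
  unfold cR
  rw [Module.Basis.coe_ofEquivFun]
  change ∑ j', (((Pi.single j (1 : RR k c) : Fin (l + 1) → RR k c) j' : RR k c) : Ω) • c j' = c j
  rw [Finset.sum_eq_single j]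
  · rw [Pi.single_eq_same]
    exact one_smul _ _
  · intro j' _ hj
    rw [Pi.single_eq_of_ne hj]
    exact zero_smul _ _
  · intro h
    exact absurd (Finset.mem_univ j) h

theorem cR_par (z : PIdx (l + 1)) : ((parR (cR k c) z : RR k c) : Ω) = parR c z := by
  rcases z with z | z
  · change (((cR k c).repr (cR k c z.1 * cR k c z.2.1) z.2.2 : RR k c) : Ω) = _
    rw [cR_repr]
    change c.repr (((cR k c z.1 : SA k c) : A) * ((cR k c z.2.1 : SA k c) : A)) z.2.2 = _
    rw [cR_apply, cR_apply]
    rfl
  · change (((cR k c).repr 1 z : RR k c) : Ω) = _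
    rw [cR_repr]
    rfl

theorem cR_Ad (h : Ad c) : Ad (cR k c) := by
  refine ⟨Subtype.ext ?_, fun f => Subtype.ext ?_⟩
  · rw [cR_apply, h.1]
    rfl
  · have h1 : ((∏ i, cR k c (f i).succ : SA k c) : A) = ∏ i, c (f i).succ := by
      change (SA k c).val (∏ i, cR k c (f i).succ) = _
      rw [map_prod]
      exact Finset.prod_congr rfl fun i _ => cR_apply c (f i).succ
    rw [h1, h.2]
    rfl

/-- **specialization** -/
theorem exists_spec (hc : Ad c) (v : PIdx (l + 1) → k)
    (hv : ∀ Q : MvPolynomial (PIdx (l + 1)) k, evp k c Q = 0 → eval v Q = 0) :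
    ∃ B : BA k (l + 1), Ad B.basis ∧ parR B.basis = v := by
  have hs : Function.Surjective (evp k c).rangeRestrict := (evp k c).rangeRestrict_surjective
  have hH : RingHom.ker (evp k c).rangeRestrict.toRingHom ≤
      RingHom.ker (aeval v : MvPolynomial (PIdx (l + 1)) k →ₐ[k] k).toRingHom := by
    intro Q hQ
    rw [RingHom.mem_ker] at hQ ⊢
    have h1 : evp k c Q = 0 := congrArg Subtype.val hQ
    change aeval v Q = 0
    rw [MvPolynomial.aeval_eq_eval]
    exact hv Q h1
  let ρ : RR k c →ₐ[k] k := AlgHom.liftOfSurjective (evp k c).rangeRestrict hs (aeval v) hH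
  have hρ : ∀ z, ρ (parR (cR k c) z) = v z := by
    intro z
    have h1 : parR (cR k c) z = (evp k c).rangeRestrict (X z) := by
      apply Subtype.ext
      rw [cR_par]
      exact (aeval_X _ _).symm
    rw [h1]
    have h2 := AlgHom.liftOfSurjective_apply (evp k c).rangeRestrict hs (aeval v) hH (X z)
    exact h2.trans (aeval_X _ _)
  let _ : Algebra (RR k c) k := ρ.toRingHom.toAlgebra
  refine ⟨⟨k ⊗[RR k c] SA k c, inferInstance, inferInstance, (cR k c).baseChange k⟩,
    Ad_bc k (cR_Ad c hc), ?_⟩
  funext z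
  rw [parR_bc]
  exact hρ z

end spec

/-- **The growth rate is at most the supremum of the growth rates over a smaller field.** -/
theorem rate_le_spec {k Ω : Type} [Field k] [IsAlgClosed k] [Field Ω] [IsAlgClosed Ω] [Algebra k Ω]
    {A : Type} [CommRing A] [Algebra Ω A] {l : ℕ} (c : Module.Basis (Fin (l + 1)) Ω A) (hc : Ad c)
    (x : ℝ) (h : ∀ B : BA k (l + 1), Ad B.basis → rate k B.carrier ≤ x) : rate Ω A ≤ x := by
  let I := {v : PIdx (l + 1) → k // ∀ Q : MvPolynomial (PIdx (l + 1)) k, evp k c Q = 0 →
    eval v Q = 0}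
  choose B hB1 hB2 using fun v : I => exists_spec c hc v.1 v.2
  refine closure_rate' (I := I) ⟨A, inferInstance, inferInstance, c⟩ hc.isLocal
    (fun v => BB Ω (B v).basis) ?_ x ?_
  · intro Q hQ
    obtain ⟨J, q, rfl⟩ := exists_decomp (k := k) Q
    have h1 : ∀ j ∈ J, evp k c (q j) = 0 := by
      intro j hj
      have hP : (RingHom.ker (evp k c)).IsPrime := RingHom.ker_isPrime _
      have h2 : q j ∈ vanishingIdeal k (zeroLocus k (RingHom.ker (evp k c))) := by
        rw [mem_vanishingIdeal_iff]
        intro v hv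
        rw [mem_zeroLocus_iff] at hv
        have hv' : ∀ Q : MvPolynomial (PIdx (l + 1)) k, evp k c Q = 0 → eval v Q = 0 := by
          intro Q hQ
          rw [← MvPolynomial.aeval_eq_eval]
          exact hv Q hQ
        have h3 := hQ ⟨v, hv'⟩
        have h4 : parR (BB Ω (B ⟨v, hv'⟩).basis).basis = fun z => algebraMap k Ω (v z) := by
          funext z
          have h5 := parR_bc Ω (B ⟨v, hv'⟩).basis z
          rw [hB2] at h5
          exact h5
        rw [h4] at h3
        rw [MvPolynomial.aeval_eq_eval]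
        exact decomp_zero v h3 j hj
      rw [IsPrime.vanishingIdeal_zeroLocus] at h2
      exact h2
    rw [map_sum]
    refine Finset.sum_eq_zero fun j hj => ?_
    have h2 : eval (parR c) (map (algebraMap k Ω) (q j)) = evp k c (q j) := by
      rw [eval_map]
      rfl
    rw [map_mul]
    change _ * eval (parR c) (map (algebraMap k Ω) (q j)) = 0
    rw [h2, h1 j hj, mul_zero]
  · intro v
    have hfin := Module.Finite.of_basis (B v).basis
    have hloc2 := (hB1 v).isLocal
    exact (rate_baseChange_le k Ω (B v).carrier).trans (h (B v) (hB1 v))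

end Pool.Agent.K7.H10.GR
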