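import Pool.Agent.K7.H10.GR.All
import Pool.Agent.K7.H10.GR.Spec

/-!
# The characteristic
-/

set_option autoImplicit false
set_option linter.unusedSectionVars false

namespace Pool.Agent.K7.H10.GR

open scoped TensorProduct Topology
open Pool.Agent.H826R3.SM Pool.Agent.TH671.DU Pool.Agent.N86.SQ
open MvPolynomial Filter

/-- all local finite schemes of degree `d` over `k` have growth rate at most `x` -/
def RateLe (k : Type) [Field k] (d : ℕ) (x : ℝ) : Prop :=
  ∀ (A : Type) [CommRing A] [Algebra k A] [Module.Finite k A] [IsLocalRing A],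
    Module.finrank k A = d → rate k A ≤ x

/-- Q1 holds for all nonempty finite schemes over `k` -/
def QAll (k : Type) [Field k] : Prop :=
  ∀ (A : Type) [CommRing A] [Algebra k A] [Module.Finite k A] [Nontrivial A], QOne k A

/-- two extension fields have a common extension -/
theorem exists_common (F k K : Type) [Field F] [Field k] [Field K] [Algebra F k] [Algebra F K] :
    ∃ (Ω : Type) (_ : Field Ω) (_ : IsAlgClosed Ω), Nonempty (k →+* Ω) ∧ Nonempty (K →+* Ω) := by
  have hnt : Nontrivial (k ⊗[F] K) := inferInstance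
  obtain ⟨M, hM⟩ := Ideal.exists_maximal (k ⊗[F] K)
  let _ : Field ((k ⊗[F] K) ⧸ M) := Ideal.Quotient.field M
  let Ω := AlgebraicClosure ((k ⊗[F] K) ⧸ M)
  let j : k ⊗[F] K →+* Ω := (algebraMap ((k ⊗[F] K) ⧸ M) Ω).comp (Ideal.Quotient.mk M)
  exact ⟨Ω, inferInstance, inferInstance,
    ⟨j.comp (Algebra.TensorProduct.includeLeft : k →ₐ[F] k ⊗[F] K).toRingHom⟩,
    ⟨j.comp (Algebra.TensorProduct.includeRight : K →ₐ[F] k ⊗[F] K).toRingHom⟩⟩

theorem rateLe_transfer (F k K : Type) [Field F] [Field k] [Field K] [Algebra F k] [Algebra F K]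
    [IsAlgClosed k] [IsAlgClosed K] (d : ℕ) (x : ℝ) (h : RateLe k d x) : RateLe K d x := by
  intro A _ _ _ _ hd
  obtain ⟨l, rfl⟩ : ∃ l, d = l + 1 := by
    have h1 : 0 < Module.finrank K A := Module.finrank_pos
    exact ⟨d - 1, by omega⟩
  obtain ⟨c, hc⟩ := exists_ad (k := K) (A := A) l hd
  obtain ⟨Ω, _, _, ⟨i1⟩, ⟨i2⟩⟩ := exists_common F k K
  let _ : Algebra k Ω := i1.toAlgebra
  let _ : Algebra K Ω := i2.toAlgebra
  rw [← rate_bc (L := Ω) c hc]
  refine rate_le_spec (k := k) (c.baseChange Ω) (Ad_bc Ω hc) x fun B hB => ?_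
  have := Module.Finite.of_basis B.basis
  have := hB.isLocal
  refine h B.carrier ?_
  rw [Module.finrank_eq_card_basis B.basis, Fintype.card_fin]

theorem qAll_iff (k : Type) [Field k] [IsAlgClosed k] : QAll k ↔ ∀ d : ℕ, RateLe k d d := by
  constructor
  · intro h d A _ _ _ _ hd
    have h1 := (qOne_iff_rate A).1 (h A)
    rw [h1, hd]
  · intro h A _ _ _ _
    refine qOne_of_local (fun A _ _ _ _ => ?_) _ A rfl
    rw [qOne_iff_rate]
    exact le_antisymm (h _ A rfl) (finrank_le_rate A)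

/-- a field of characteristic `p` is an algebra over a fixed field -/
theorem exists_prime (p : ℕ) : ∃ (F : Type) (_ : Field F), ∀ (k : Type) [Field k] [CharP k p],
    Nonempty (Algebra F k) := by
  rcases Nat.eq_zero_or_pos p with rfl | hp
  · refine ⟨ℚ, inferInstance, fun k _ _ => ?_⟩
    have : CharZero k := CharP.charP_to_charZero k
    exact ⟨inferInstance⟩
  · by_cases hp' : p.Prime
    · have : Fact p.Prime := ⟨hp'⟩
      exact ⟨ZMod p, inferInstance, fun k _ _ => ⟨ZMod.algebra k p⟩⟩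
    · refine ⟨ℚ, inferInstance, fun k _ _ => ?_⟩
      exfalso
      rcases CharP.char_is_prime_or_zero k p with h | h
      · exact hp' h
      · omega

/-- **Q1 and the maximal growth rates depend only on the characteristic.** -/
theorem char_transfer (p : ℕ) (k K : Type) [Field k] [Field K] [IsAlgClosed k] [IsAlgClosed K]
    [CharP k p] [CharP K p] : (∀ (d : ℕ) (x : ℝ), RateLe k d x → RateLe K d x) ∧
      (QAll k → QAll K) := by
  obtain ⟨F, _, hF⟩ := exists_prime p
  let _ : Algebra F k := (hF k).some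
  let _ : Algebra F K := (hF K).some
  refine ⟨fun d x h => rateLe_transfer F k K d x h, fun h => ?_⟩
  rw [qAll_iff] at h ⊢
  exact fun d => rateLe_transfer F k K d d (h d)

theorem mdeg_eq {k A : Type} [Field k] [IsAlgClosed k] [CommRing A] [Algebra k A]
    [Module.Finite k A] (n : ℕ) : ((mdeg k (Pow k A n) : ℕ) : ℝ) =
      (Module.finrank k A : ℝ) ^ n + defect k (Pow k A n) := by
  rw [← fadd k (Pow k A n), finrank_Pow']
  push_cast
  rfl

/-- **Uniform convergence to the growth rate.** -/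
theorem char_unif (p d : ℕ) (η : ℝ) (hη : 0 < η) : ∃ N : ℕ, ∀ (k : Type) [Field k]
    [IsAlgClosed k] [CharP k p] (A : Type) [CommRing A] [Algebra k A] [Module.Finite k A]
    [IsLocalRing A], Module.finrank k A = d → ∀ n, N ≤ n →
      (d : ℝ) ^ n + defect k (Pow k A n) ≤ (rate k A + η) ^ n := by
  obtain ⟨F, _, hF⟩ := exists_prime p
  rcases Nat.eq_zero_or_pos d with rfl | hd
  · refine ⟨0, fun k _ _ _ A _ _ _ _ h => ?_⟩
    have h1 : 0 < Module.finrank k A := Module.finrank_pos
    omega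
  · obtain ⟨l, rfl⟩ : ∃ l, d = l + 1 := ⟨d - 1, by omega⟩
    obtain ⟨N, hN⟩ := unif_pow F l η hη
    refine ⟨N, fun k _ _ _ A _ _ _ _ h n hn => ?_⟩
    let _ : Algebra F k := (hF k).some
    obtain ⟨c, hc⟩ := exists_ad (k := k) (A := A) l h
    have h1 := hN k A c hc n hn
    rw [mdeg_eq, h] at h1
    exact h1

/-- **One power decides Q1.** -/
theorem char_power (p d : ℕ) : ∃ N : ℕ, 1 ≤ N ∧ ∃ ε : ℝ, 0 < ε ∧ ∀ (k : Type) [Field k]
    [IsAlgClosed k] [CharP k p] (A : Type) [CommRing A] [Algebra k A] [Module.Finite k A]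
    [IsLocalRing A], Module.finrank k A = d →
      (QOne k A ↔ (d : ℝ) ^ N + defect k (Pow k A N) < ((d : ℝ) + ε) ^ N) := by
  obtain ⟨F, _, hF⟩ := exists_prime p
  rcases Nat.eq_zero_or_pos d with rfl | hd
  · refine ⟨1, le_rfl, 1, one_pos, fun k _ _ _ A _ _ _ _ h => ?_⟩
    have h1 : 0 < Module.finrank k A := Module.finrank_pos
    omega
  · obtain ⟨l, rfl⟩ : ∃ l, d = l + 1 := ⟨d - 1, by omega⟩
    obtain ⟨ε, hε, hgap⟩ := gap_all F l
    obtain ⟨N, hN⟩ := unif_pow F l (ε / 2) (by linarith)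
    refine ⟨max N 1, le_max_right _ _, ε, hε, fun k _ _ _ A _ _ _ _ h => ?_⟩
    let _ : Algebra F k := (hF k).some
    obtain ⟨c, hc⟩ := exists_ad (k := k) (A := A) l h
    have hfr : (Module.finrank k A : ℝ) = ((l + 1 : ℕ) : ℝ) := by rw [h]
    have h0 : (0 : ℝ) ≤ ((l + 1 : ℕ) : ℝ) := Nat.cast_nonneg _
    constructor
    · intro hQ
      rw [qOne_iff_rate, hfr] at hQ
      have h1 := hN k A c hc (max N 1) (le_max_left _ _)
      rw [mdeg_eq, hfr, hQ] at h1
      refine lt_of_le_of_lt h1 (pow_lt_pow_left₀ (by linarith) (by linarith) ?_)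
      have := le_max_right N 1
      omega
    · intro hlt
      rw [qOne_iff_rate, hfr]
      refine hgap k A c hc ?_
      have h1 := rate_pow_le (k := k) A (max N 1)
      rw [mdeg_eq, hfr] at h1
      exact lt_of_pow_lt_pow_left₀ (max N 1) (by linarith) (lt_of_le_of_lt h1 hlt)

end Pool.Agent.K7.H10.GR
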