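import Pool.Agent.K7.H10.GR.Ult

/-!
# Closures over larger fields
-/

set_option autoImplicit false
set_option linter.unusedSectionVars false

namespace Pool.Agent.K7.H10.GR

open scoped TensorProduct
open Pool.Agent.H826R3.SM Pool.Agent.TH671.DU Pool.Agent.N86.SQ
open MvPolynomial Filter

/-- decomposition of a polynomial over an extension field -/
theorem exists_decomp {k L σ : Type} [Field k] [Field L] [Algebra k L] (Q : MvPolynomial σ L) :
    ∃ (J : Finset (Module.Basis.ofVectorSpaceIndex k L))
      (q : Module.Basis.ofVectorSpaceIndex k L → MvPolynomial σ k),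
      Q = ∑ j ∈ J, C (Module.Basis.ofVectorSpace k L j) * map (algebraMap k L) (q j) := by
  classical
  set B := Module.Basis.ofVectorSpace k L with hB
  refine ⟨Q.support.biUnion fun s => (B.repr (coeff s Q)).support,
    fun j => ∑ s ∈ Q.support, monomial s (B.repr (coeff s Q) j), ?_⟩
  ext t
  rw [coeff_sum]
  simp only [coeff_C_mul, coeff_map, coeff_sum, coeff_monomial]
  by_cases ht : t ∈ Q.support
  · have h1 : ∀ j, (∑ s ∈ Q.support, if s = t then (B.repr (coeff s Q)) j else 0) =
        B.repr (coeff t Q) j := by
      intro j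
      rw [Finset.sum_ite_eq' Q.support t, if_pos ht]
    simp only [h1]
    have h2 := B.linearCombination_repr (coeff t Q)
    rw [Finsupp.linearCombination_apply, Finsupp.sum] at h2
    conv_lhs => rw [← h2]
    refine Finset.sum_subset (Finset.subset_biUnion_of_mem
      (fun s => (B.repr (coeff s Q)).support) ht) ?_ |>.trans ?_
    · intro j _ hj
      rw [Finsupp.notMem_support_iff.1 hj, zero_smul]
    · refine Finset.sum_congr rfl fun j _ => ?_
      rw [Algebra.smul_def, mul_comm]
  · have h1 : ∀ j, (∑ s ∈ Q.support, if s = t then (B.repr (coeff s Q)) j else 0) = 0 := by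
      intro j
      rw [Finset.sum_ite_eq' Q.support t, if_neg ht]
    simp only [h1, map_zero, mul_zero, Finset.sum_const_zero]
    exact notMem_support_iff.1 ht

/-- the coefficients vanish if the values do -/
theorem decomp_zero {k L σ : Type} [Field k] [Field L] [Algebra k L]
    {J : Finset (Module.Basis.ofVectorSpaceIndex k L)}
    {q : Module.Basis.ofVectorSpaceIndex k L → MvPolynomial σ k} (v : σ → k)
    (h : eval (fun z => algebraMap k L (v z))
      (∑ j ∈ J, C (Module.Basis.ofVectorSpace k L j) * map (algebraMap k L) (q j)) = 0) :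
    ∀ j ∈ J, eval v (q j) = 0 := by
  rw [map_sum] at h
  have h1 : ∀ j, eval (fun z => algebraMap k L (v z))
      (C (Module.Basis.ofVectorSpace k L j) * map (algebraMap k L) (q j)) =
      eval v (q j) • Module.Basis.ofVectorSpace k L j := by
    intro j
    rw [map_mul, eval_C, eval_map, mul_comm, Algebra.smul_def]
    congr 1
    rw [← coe_eval₂Hom]
    have h2 : eval₂Hom (algebraMap k L) (fun z => algebraMap k L (v z)) =
        (algebraMap k L).comp (eval v) := by
      apply MvPolynomial.ringHom_ext
      · intro r
        simp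
      · intro i
        simp
    rw [h2]
    rfl
  simp only [h1] at h
  exact linearIndependent_iff'.1 (Module.Basis.ofVectorSpace k L).linearIndependent J _ h

section ultra

variable {k : Type} [Field k] (U : Ultrafilter ℕ)

/-- constant families -/
noncomputable instance instConst : Algebra k (PP fun _ : ℕ => k) :=
  RingHom.toAlgebra
    { toFun := fun x _ => x
      map_one' := rfl
      map_mul' := fun _ _ => rfl
      map_zero' := rfl
      map_add' := fun _ _ => rfl }

theorem const_apply (x : k) : algebraMap k (UK U fun _ => k) x = mk U (fun _ => x) := rfl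

theorem eval_mk {σ : Type} (v : ℕ → σ → k) (q : MvPolynomial σ k) :
    eval (fun z => mk U (K := fun _ => k) (fun i => v i z))
      (map (algebraMap k (UK U fun _ => k)) q) = mk U (K := fun _ => k) (fun i => eval (v i) q) := by
  rw [eval_map]
  induction q using MvPolynomial.induction_on with
  | C a =>
    rw [eval₂_C, const_apply]
    simp only [eval_C]
  | add p q hp hq =>
    rw [eval₂_add, hp, hq]
    simp only [map_add]
    rfl
  | mul_X p z hp =>
    rw [eval₂_mul, eval₂_X, hp]
    simp only [map_mul, eval_X]
    rfl

theorem closure_ultra {σ : Type} (v : ℕ → σ → k) (S : Set ℕ) (hS : ∀ᶠ i in (U : Filter ℕ), i ∈ S)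
    (Q : MvPolynomial σ (UK U fun _ => k))
    (h : ∀ i ∈ S, eval (fun z => algebraMap k (UK U fun _ => k) (v i z)) Q = 0) :
    eval (fun z => mk U (K := fun _ => k) (fun i => v i z)) Q = 0 := by
  obtain ⟨J, q, rfl⟩ := exists_decomp (k := k) Q
  rw [map_sum]
  refine Finset.sum_eq_zero fun j hj => ?_
  rw [map_mul, eval_mk]
  have h1 : mk U (K := fun _ => k) (fun i => eval (v i) (q j)) = mk U (K := fun _ => k) 0 := by
    rw [mk_eq]
    filter_upwards [hS] with i hi
    exact decomp_zero (v i) (h i hi) j hj
  rw [h1]
  have h2 : mk U (K := fun _ => k) 0 = 0 := map_zero _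
  rw [h2, mul_zero]

end ultra

end Pool.Agent.K7.H10.GR
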