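import Pool.Agent.K7.H10.GR.Wf

/-!
# Final statements
-/

set_option autoImplicit false
set_option linter.unusedSectionVars false

namespace Pool.Agent.K7.H10.GR

open scoped TensorProduct Topology
open Pool.Agent.H826R3.SM Pool.Agent.TH671.DU Pool.Agent.N86.SQ
open MvPolynomial Filter

/-- For all local finite schemes `Γ` of degree `d` over algebraically closed fields of characteristic
`p` and all `n ≥ N` we have `deg Γ^n + δ(Γ^n) ≤ (rate Γ + η)^n`. -/
def Uniform (p d : ℕ) (η : ℝ) (N : ℕ) : Prop :=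
  ∀ (k : Type) [Field k] [IsAlgClosed k] [CharP k p] (A : Type) [CommRing A] [Algebra k A]
    [Module.Finite k A] [IsLocalRing A], Module.finrank k A = d → ∀ n, N ≤ n →
      (d : ℝ) ^ n + defect k (Pow k A n) ≤ (rate k A + η) ^ n

/-- For all local finite schemes `Γ` of degree `d` over algebraically closed fields of characteristic
`p`: Q1 holds for `Γ` if and only if `deg Γ^N + δ(Γ^N) < (d + ε)^N`. -/
def OnePower (p d N : ℕ) (ε : ℝ) : Prop :=
  ∀ (k : Type) [Field k] [IsAlgClosed k] [CharP k p] (A : Type) [CommRing A] [Algebra k A]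
    [Module.Finite k A] [IsLocalRing A], Module.finrank k A = d →
      (QOne k A ↔ (d : ℝ) ^ N + defect k (Pow k A N) < ((d : ℝ) + ε) ^ N)

theorem qOne_field (k K A : Type) [Field k] [IsAlgClosed k] [Field K] [IsAlgClosed K] [Algebra k K]
    [CommRing A] [Algebra k A] [Module.Finite k A] [IsLocalRing A] :
    QOne K (K ⊗[k] A) ↔ QOne k A := by
  have := nontrivial_baseChange k K A
  rw [qOne_iff_rate, qOne_iff_rate, rate_field k K A, Module.finrank_baseChange]

theorem max_rate (p d : ℕ) (hp : ∃ (k : Type) (_ : Field k), CharP k p) (hd : 1 ≤ d) :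
    ∃ M ∈ allRates p d, ∀ (k : Type) [Field k] [IsAlgClosed k] [CharP k p] (x : ℝ),
      RateLe k d x ↔ M ≤ x := by
  obtain ⟨M, hM, hM2⟩ := exists_max p d hd hp
  refine ⟨M, hM, fun k _ _ _ x => ⟨fun h => ?_, fun h A _ _ _ _ hA => ?_⟩⟩
  · obtain ⟨K, _, _, _, A, _, _, _, _, h2, rfl⟩ := hM
    exact (char_transfer p k K).1 d x h A h2
  · refine (hM2 _ ⟨k, inferInstance, inferInstance, inferInstance, A, inferInstance, inferInstance,
      inferInstance, inferInstance, hA, rfl⟩).trans h

end Pool.Agent.K7.H10.GR
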