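import Pool.Agent.K7.H10.GR.Cert

/-!
# Growth of the number of lines for the standard generators
-/

set_option autoImplicit false
set_option linter.unusedSectionVars false

namespace Pool.Agent.K7.H10.GR

open scoped TensorProduct PowerSeries Topology
open Pool.Agent.H826R3.SM Pool.Agent.TH671.DU Pool.Agent.N86.SQ
open MvPolynomial Filter

variable {k : Type} [Field k] [IsAlgClosed k]

theorem lines_comp {A B σ σ' : Type} [CommRing A] [Algebra k A] [CommRing B] [Algebra k B]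
    {b : σ → B} {m W : ℕ} (h : LinesUpTo k b m W) (f : B →ₐ[k] A) (τ : σ' → σ) :
    LinesUpTo k (fun v => f (b (τ v))) m W := by
  obtain ⟨p, hp⟩ := h
  refine ⟨fun w v => p w (τ v), fun e he M hM hM0 => ?_⟩
  have h1 := hp e he (rename τ M) (hM.rename_isHomogeneous) fun w => by
    rw [eval_rename]
    exact hM0 w
  rw [aeval_rename] at h1
  have h2 : aeval (fun v => f (b (τ v))) M = f (aeval (b ∘ τ) M) := by
    rw [← MvPolynomial.comp_aeval_apply]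
    rfl
  rw [h2, h1, map_zero]

theorem std_lines {A : Type} [CommRing A] [Algebra k A] [Module.Finite k A] [IsLocalRing A] {l : ℕ}
    (c : Module.Basis (Fin (l + 1)) k A) (N : ℕ) {D : ℕ} (hD : Fam k (Pow k A (N + 1)) D) :
    ∃ e' h : ℕ, ∀ n m : ℕ, ∃ W ≤ D ^ (n / (N + 1) + 1) *
      ((m * ((n / (N + 1) + 1) * h) + 1) * (m + 1) ^ e'), LinesUpTo k (gens c n) m W := by
  classical
  have : Infinite k := IsAlgClosed.instInfinite
  obtain ⟨aug, -⟩ := local_gens (k := k) A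
  obtain ⟨O, _, _, _, _, _, T, _, h, q, hT, hJ⟩ := joint_of_fam hD
    (aeval (gens c (N + 1))) fun j => (Module.finBasis k (Pow k A (N + 1))).coord j
  refine ⟨Module.finrank k⟦X⟧ O, h, fun n m => ?_⟩
  have h1 := linesUpTo_of_joint hJ.jointA (n / (N + 1) + 1) m
  let τ : Fin n × Fin l → Fin (n / (N + 1) + 1) × (Fin (N + 1) × Fin l) := fun v =>
    (⟨(v.1 : ℕ) / (N + 1), Nat.lt_succ_of_le (Nat.div_le_div_right v.1.2.le)⟩,
      (⟨(v.1 : ℕ) % (N + 1), Nat.mod_lt _ (Nat.succ_pos N)⟩, v.2))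
  have h2 := lines_comp h1 (powLift fun i : Fin (n / (N + 1) + 1) => ff aug (N + 1) n i) τ
  have h3 : (fun v => (powLift fun i : Fin (n / (N + 1) + 1) => ff aug (N + 1) n i)
      ((sg k (Pow k A (N + 1)) (τ v).1) (gens c (N + 1) (τ v).2))) = gens c n := by
    funext v
    rw [powLift_single]
    have hlM : ((v.1 : ℕ) / (N + 1)) * (N + 1) + (v.1 : ℕ) % (N + 1) = v.1 :=
      Nat.div_add_mod' _ _
    have h4 : ((v.1 : ℕ) / (N + 1)) * (N + 1) + ((⟨(v.1 : ℕ) % (N + 1),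
        Nat.mod_lt _ (Nat.succ_pos N)⟩ : Fin (N + 1)) : ℕ) < n := by
      change ((v.1 : ℕ) / (N + 1)) * (N + 1) + (v.1 : ℕ) % (N + 1) < n
      rw [hlM]
      exact v.1.2
    change ff aug (N + 1) n ((v.1 : ℕ) / (N + 1)) (sg k A ⟨(v.1 : ℕ) % (N + 1), _⟩ (c v.2.succ)) = _
    rw [ff_single aug (N + 1) n _ _ h4]
    have h5 : (⟨((v.1 : ℕ) / (N + 1)) * (N + 1) + ((⟨(v.1 : ℕ) % (N + 1),
        Nat.mod_lt _ (Nat.succ_pos N)⟩ : Fin (N + 1)) : ℕ), h4⟩ : Fin n) = v.1 := Fin.ext hlM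
    rw [h5]
    rfl
  rw [h3] at h2
  refine ⟨_, ?_, h2⟩
  gcongr

/-- **growth of the number of lines** -/
theorem std_growth {A : Type} [CommRing A] [Algebra k A] [Module.Finite k A] [IsLocalRing A] {l : ℕ}
    (c : Module.Basis (Fin (l + 1)) k A) (η : ℝ) (hη : 0 < η) : ∃ C : ℝ, 0 ≤ C ∧ ∀ n : ℕ,
      ∃ W : ℕ, (W : ℝ) ≤ C * (rate k A + η) ^ n ∧ LinesUpTo k (gens c n) ((l + 1) * n) W := by
  classical
  have hr1 := one_le_rate (k := k) A
  set x' : ℝ := rate k A + η / 2 with hx'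
  set x : ℝ := rate k A + η with hx
  have hlt : rate k A < x' := by linarith
  have hx1 : 1 ≤ x' := by linarith
  have hxx : x' < x := by linarith
  have h1 := hlt
  rw [rate_eq A] at h1
  obtain ⟨N, hN⟩ := exists_lt_of_ciInf_lt h1
  obtain ⟨D', hD'⟩ := exists_fam (k := k) (Pow k A (N + 1))
  have hD := mdeg_spec hD'
  set D := mdeg k (Pow k A (N + 1)) with hDdef
  have hDx : (D : ℝ) ≤ x' ^ (N + 1) := by
    have h3 := pow_le_pow_left₀ (by positivity) hN.le (N + 1)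
    refine le_trans (le_of_eq ?_) h3
    rw [← Real.rpow_natCast, ← Real.rpow_mul (Nat.cast_nonneg _)]
    push_cast
    rw [one_div, inv_mul_cancel₀ (by positivity), Real.rpow_one]
  obtain ⟨e', h, hlp⟩ := std_lines c N hD
  set K : ℝ := (((l + 1 : ℕ) : ℝ) * h + 1) * ((l + 1 : ℕ) + 1) ^ e' with hK
  obtain ⟨B, hB0, hB⟩ := poly_mul_geom_bdd (e' + 2) (z := x' / x) (by positivity)
    ((div_lt_one (by linarith)).2 hxx)
  refine ⟨K * x' ^ (N + 1) * (B / (x' / x)), by positivity, fun n => ?_⟩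
  obtain ⟨W, hW, hWl⟩ := hlp n ((l + 1) * n)
  refine ⟨W, ?_, hWl⟩
  set j : ℕ := n / (N + 1) + 1 with hj
  have hjn : (N + 1) * j ≤ n + (N + 1) := by
    have := Nat.mul_div_le n (N + 1)
    rw [hj, mul_add, mul_one]
    omega
  have hj1 : (j : ℝ) ≤ n + 1 := by
    have h3 : j ≤ n + 1 := by
      rw [hj]
      exact Nat.succ_le_succ (Nat.div_le_self _ _)
    exact_mod_cast h3
  have hj0 : (0 : ℝ) ≤ j := Nat.cast_nonneg _
  have hl0 : (0 : ℝ) ≤ ((l + 1 : ℕ) : ℝ) := Nat.cast_nonneg _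
  have hh0 : (0 : ℝ) ≤ h := Nat.cast_nonneg _
  have hn0 : (0 : ℝ) ≤ n := Nat.cast_nonneg _
  have hW' : (W : ℝ) ≤ (D : ℝ) ^ j * (((((l + 1 : ℕ) : ℝ) * n) * (j * h) + 1) *
      (((l + 1 : ℕ) : ℝ) * n + 1) ^ e') := by
    exact_mod_cast hW
  have hDj : (D : ℝ) ^ j ≤ x' ^ (N + 1) * x' ^ n := by
    calc (D : ℝ) ^ j ≤ (x' ^ (N + 1)) ^ j := pow_le_pow_left₀ (Nat.cast_nonneg _) hDx _
      _ = x' ^ ((N + 1) * j) := (pow_mul _ _ _).symm
      _ ≤ x' ^ (n + (N + 1)) := pow_le_pow_right₀ hx1 hjn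
      _ = x' ^ (N + 1) * x' ^ n := by rw [pow_add, mul_comm]
  have hp1 : ((((l + 1 : ℕ) : ℝ) * n) * (j * h) + 1) ≤ (((l + 1 : ℕ) : ℝ) * h + 1) * (n + 1) ^ 2 := by
    have h6 : (0 : ℝ) ≤ ((l + 1 : ℕ) : ℝ) * h := by positivity
    have h7 : (((l + 1 : ℕ) : ℝ) * n) * (j * h) ≤ (((l + 1 : ℕ) : ℝ) * h) * ((n + 1) * (n + 1)) := by
      calc (((l + 1 : ℕ) : ℝ) * n) * (j * h) = (((l + 1 : ℕ) : ℝ) * h) * (n * j) := by ring
        _ ≤ (((l + 1 : ℕ) : ℝ) * h) * ((n + 1) * (n + 1)) := by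
          refine mul_le_mul_of_nonneg_left ?_ h6
          exact mul_le_mul (by linarith) hj1 hj0 (by linarith)
    nlinarith
  have hp2 : (((l + 1 : ℕ) : ℝ) * n + 1) ^ e' ≤ (((l + 1 : ℕ) : ℝ) + 1) ^ e' * (n + 1) ^ e' := by
    rw [← mul_pow]
    refine pow_le_pow_left₀ (by positivity) ?_ _
    nlinarith
  have hp3 : ((((l + 1 : ℕ) : ℝ) * n) * (j * h) + 1) * (((l + 1 : ℕ) : ℝ) * n + 1) ^ e' ≤
      K * (n + 1) ^ (e' + 2) := by
    calc _ ≤ ((((l + 1 : ℕ) : ℝ) * h + 1) * (n + 1) ^ 2) *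
          ((((l + 1 : ℕ) : ℝ) + 1) ^ e' * (n + 1) ^ e') :=
          mul_le_mul hp1 hp2 (by positivity) (by positivity)
      _ = K * (n + 1) ^ (e' + 2) := by rw [hK, pow_add]; ring
  have hx0 : 0 < x' / x := by
    have : 0 < x := by linarith
    positivity
  have hgeo : ((n : ℝ) + 1) ^ (e' + 2) * x' ^ n ≤ B / (x' / x) * x ^ n := by
    have h7 := hB (n + 1)
    push_cast at h7
    have hxn : x' ^ n = (x' / x) ^ n * x ^ n := by
      rw [← mul_pow, div_mul_cancel₀ _ (by linarith : x ≠ 0).symm.symm]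
    rw [hxn, ← mul_assoc]
    refine mul_le_mul_of_nonneg_right ?_ (pow_nonneg (by linarith) _)
    rw [le_div_iff₀ hx0]
    calc ((n : ℝ) + 1) ^ (e' + 2) * (x' / x) ^ n * (x' / x)
        = ((n : ℝ) + 1) ^ (e' + 2) * (x' / x) ^ (n + 1) := by rw [pow_succ]; ring
      _ ≤ B := h7
  have hK0 : 0 ≤ K := by positivity
  calc (W : ℝ) ≤ (D : ℝ) ^ j * (((((l + 1 : ℕ) : ℝ) * n) * (j * h) + 1) *
      (((l + 1 : ℕ) : ℝ) * n + 1) ^ e') := hW'
    _ ≤ (x' ^ (N + 1) * x' ^ n) * (K * (n + 1) ^ (e' + 2)) :=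
        mul_le_mul hDj hp3 (by positivity) (by positivity)
    _ = K * x' ^ (N + 1) * ((n + 1) ^ (e' + 2) * x' ^ n) := by ring
    _ ≤ K * x' ^ (N + 1) * (B / (x' / x) * x ^ n) :=
        mul_le_mul_of_nonneg_left hgeo (by positivity)
    _ = K * x' ^ (N + 1) * (B / (x' / x)) * x ^ n := by ring

/-- upper bound from lines -/
theorem mdeg_le_lines {A : Type} [CommRing A] [Algebra k A] [Module.Finite k A] {l : ℕ}
    {c : Module.Basis (Fin (l + 1)) k A} (hc : Ad c) {n W : ℕ}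
    (h : LinesUpTo k (gens c n) ((l + 1) * n) W) :
    mdeg k (Pow k A n) ≤ W * ((l + 1) * n + 2) := by
  have h1 := inLines_of_linesUpTo (adjoin_pow hc.gen n) (nil_pow (k := k) _ l hc.nil n) h
  exact TH671.DU.mdeg_le (fam_pow_of_lines hc.gen hc.nil h1)

end Pool.Agent.K7.H10.GR
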