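import Pool.Agent.K7.H10.GR.Clo
import Pool.Agent.K7.H10.GR.Std

/-!
# Uniform certificates over one field
-/

set_option autoImplicit false
set_option linter.unusedSectionVars false

namespace Pool.Agent.K7.H10.GR

open scoped TensorProduct Topology
open Pool.Agent.H826R3.SM Pool.Agent.TH671.DU Pool.Agent.N86.SQ
open MvPolynomial Filter

/-- polynomials grow more slowly than exponentials -/
theorem poly_exp (C : ℝ) (a b : ℕ) (x y : ℝ) (hx : 0 ≤ x) (hxy : x < y) :
    ∀ᶠ n : ℕ in atTop, C * x ^ n * (a * n + b : ℕ) ≤ y ^ n := by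
  have hy : 0 < y := lt_of_le_of_lt hx hxy
  have h1 : Tendsto (fun n : ℕ => (n : ℝ) ^ 1 * (x / y) ^ n) atTop (𝓝 0) :=
    tendsto_pow_const_mul_const_pow_of_lt_one 1 (by positivity) ((div_lt_one hy).2 hxy)
  have h2 : Tendsto (fun n : ℕ => (x / y) ^ n) atTop (𝓝 0) :=
    tendsto_pow_atTop_nhds_zero_of_lt_one (by positivity) ((div_lt_one hy).2 hxy)
  have h3 : Tendsto (fun n : ℕ => C * a * ((n : ℝ) ^ 1 * (x / y) ^ n) + C * b * (x / y) ^ n) atTop
      (𝓝 (C * a * 0 + C * b * 0)) := (h1.const_mul _).add (h2.const_mul _)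
  rw [mul_zero, mul_zero, add_zero] at h3
  filter_upwards [h3.eventually_lt_const (show (0 : ℝ) < 1 by norm_num)] with n hn
  have h4 : C * x ^ n * (a * n + b : ℕ) =
      (C * a * ((n : ℝ) ^ 1 * (x / y) ^ n) + C * b * (x / y) ^ n) * y ^ n := by
    rw [div_pow]
    push_cast
    field_simp
  rw [h4]
  exact (mul_le_of_le_one_left (by positivity) hn.le)

theorem one_cert {k : Type} [Field k] [IsAlgClosed k] {A : Type} [CommRing A] [Algebra k A]
    {l : ℕ} (c : Module.Basis (Fin (l + 1)) k A) (hc : Ad c) (η : ℝ) (hη : 0 < η) (N : ℕ) :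
    ∃ n, N ≤ n ∧ ∃ W : ℕ, Cert k (TT c) n ((l + 1) * n) W ∧
      ((W * ((l + 1) * n + 2) : ℕ) : ℝ) ≤ (rate k A + η) ^ n := by
  have := Module.Finite.of_basis c
  have := hc.isLocal
  obtain ⟨C, hC, h⟩ := std_growth c (η / 2) (by linarith)
  have hr := one_le_rate (k := k) A
  have h1 := poly_exp C (l + 1) 2 (rate k A + η / 2) (rate k A + η) (by linarith) (by linarith)
  obtain ⟨n, hn1, hn2⟩ := (h1.and (eventually_ge_atTop N)).exists
  obtain ⟨W, hW, hL⟩ := h n
  refine ⟨n, hn2, W, cert_of_lines c n hL, le_trans ?_ hn1⟩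
  push_cast
  exact mul_le_mul_of_nonneg_right hW (by positivity)

theorem rate_of_cert {k : Type} [Field k] [IsAlgClosed k] {A : Type} [CommRing A] [Algebra k A]
    {l : ℕ} (c : Module.Basis (Fin (l + 1)) k A) (hc : Ad c) {n W : ℕ}
    (h : Cert k (TT c) n ((l + 1) * n) W) :
    mdeg k (Pow k A n) ≤ W * ((l + 1) * n + 2) := by
  have := Module.Finite.of_basis c
  exact mdeg_le_lines hc (lines_of_cert c n h)

end Pool.Agent.K7.H10.GR
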