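import Pool.Agent.K7.H10.GR.Chr

/-!
# Large characteristics
-/

set_option autoImplicit false
set_option linter.unusedSectionVars false

namespace Pool.Agent.K7.H10.GR

open scoped TensorProduct Topology
open Pool.Agent.H826R3.SM Pool.Agent.TH671.DU Pool.Agent.N86.SQ
open MvPolynomial Filter

/-- ultraproducts of fields of growing characteristic -/
theorem charZero_ultra (K : ℕ → Type) [∀ i, Field (K i)] (q : ℕ → ℕ) [∀ i, CharP (K i) (q i)]
    (hq : ∀ i, i ≤ q i) : CharP (UK (hyperfilter ℕ) K) 0 := by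
  have key : ∀ n : ℕ, ((n : ℕ) : UK (hyperfilter ℕ) K) = 0 → n = 0 := by
    intro n hn
    have h1 : mk (hyperfilter ℕ) (K := K) ((n : ℕ) : PP K) = mk (hyperfilter ℕ) (K := K) 0 := by
      change Ideal.Quotient.mk _ ((n : ℕ) : PP K) = Ideal.Quotient.mk _ 0
      rw [map_natCast, map_zero]
      exact hn
    rw [mk_eq] at h1
    have h2 : ∀ᶠ i in ((hyperfilter ℕ : Ultrafilter ℕ) : Filter ℕ), n < i :=
      (Nat.hyperfilter_le_atTop) (eventually_gt_atTop n)
    obtain ⟨i, hi1, hi2⟩ := (h1.and h2).exists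
    have h3 : ((n : ℕ) : K i) = 0 := by
      have h4 : ((n : ℕ) : PP K) i = ((n : ℕ) : K i) := map_natCast (ev K i) n
      rw [← h4]
      exact hi1
    rw [CharP.cast_eq_zero_iff (K i) (q i)] at h3
    rcases Nat.eq_zero_or_pos n with h | h
    · exact h
    · have h5 := Nat.le_of_dvd h h3
      have := hq i
      omega
  refine ⟨fun n => ?_⟩
  rw [Nat.zero_dvd]
  exact ⟨key n, fun h => by rw [h, Nat.cast_zero]⟩

/-- **The maximal growth rates in large characteristics.** -/
theorem large_char (K₀ : Type) [Field K₀] [IsAlgClosed K₀] [CharZero K₀] (d : ℕ) (x : ℝ)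
    (hx : RateLe K₀ d x) (η : ℝ) (hη : 0 < η) : ∃ p₀ : ℕ, ∀ p, p₀ ≤ p → ∀ (k : Type) [Field k]
      [IsAlgClosed k] [CharP k p], RateLe k d (x + η) := by
  rcases Nat.eq_zero_or_pos d with rfl | hd
  · refine ⟨0, fun p _ k _ _ _ A _ _ _ _ h => ?_⟩
    have h1 : 0 < Module.finrank k A := Module.finrank_pos
    omega
  obtain ⟨l, rfl⟩ : ∃ l, d = l + 1 := ⟨d - 1, by omega⟩
  by_contra hcon
  unfold RateLe at hcon
  push Not at hcon
  choose q hq K iF iC iP A iR iA iM iL hfr hlt using hcon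
  have hb := fun i => exists_ad (k := K i) (A := A i) l (hfr i)
  choose c hc using hb
  let U : Ultrafilter ℕ := hyperfilter ℕ
  have hchar : CharP (UK U K) 0 := charZero_ultra K q hq
  have hchar0 : CharP K₀ 0 := inferInstance
  have hAd := BU_Ad c U hc
  have hfin' := Module.Finite.of_basis (BU c U).basis
  have hloc' := hAd.isLocal
  have h1 := (char_transfer 0 K₀ (UK U K)).1 (l + 1) x hx
  have h2 : rate (UK U K) (BU c U).carrier ≤ x := by
    refine h1 _ ?_
    rw [Module.finrank_eq_card_basis (BU c U).basis, Fintype.card_fin]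
  have hr' := one_le_rate (k := UK U K) (BU c U).carrier
  obtain ⟨n, hn, W, hW1, hW2⟩ := one_cert (BU c U).basis hAd η hη 1
  obtain ⟨i, hi⟩ := (BU_cert c U hW1).exists
  have h3 : rate (K i) (A i) ≤ x + η := by
    refine good_rate (c i) (hc i) hn (by linarith) ⟨W, hi, hW2.trans ?_⟩
    exact pow_le_pow_left₀ (by linarith) (by linarith) n
  exact absurd (hlt i) (not_lt.2 h3)

/-- certificates are preserved by ring homomorphisms -/
theorem cert_map {k L : Type} [CommRing k] [CommRing L] (j : k →+* L) {l : ℕ}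
    (T : (Fin l → ℕ) → Fin (l + 1) → k) {n m W : ℕ} (h : Cert k T n m W) :
    Cert L (fun t i => j (T t i)) n m W := by
  obtain ⟨p, cf, h⟩ := h
  refine ⟨fun w v => j (p w v), fun J e w => j (cf J e w), fun s hs J => ?_⟩
  have h1 := congrArg j (h s hs J)
  rw [map_prod, map_sum] at h1
  rw [h1]
  refine Finset.sum_congr rfl fun w _ => ?_
  rw [map_mul, map_prod]
  simp only [map_pow]

/-- the algebraic numbers -/
abbrev Q : Type := AlgebraicClosure ℚ

theorem emb_Q (K : Type) [Field K] [IsAlgClosed K] [CharZero K] : Nonempty (Q →+* K) := by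
  have h : Algebra.IsAlgebraic ℚ Q := AlgebraicClosure.isAlgebraic ℚ
  let j : Q →ₐ[ℚ] K := IsAlgClosed.lift
  exact ⟨j.toRingHom⟩

section red

variable {A₀ : Type} [CommRing A₀] {l : ℕ} (c : Module.Basis (Fin (l + 1)) ℤ A₀)

theorem TT_int (K : Type) [Field K] : TT (c.baseChange K) = fun t j => ((TT c t j : ℤ) : K) := by
  funext t j
  rw [TT_bc]
  rfl

/-- **Growth rates of the reductions modulo large primes.** -/
theorem red_rate (hc : Ad c) (K₀ : Type) [Field K₀] [IsAlgClosed K₀] [CharZero K₀] (η : ℝ)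
    (hη : 0 < η) : ∃ p₀ : ℕ, ∀ p, p₀ ≤ p → ∀ (k : Type) [Field k] [IsAlgClosed k] [CharP k p],
      rate k (k ⊗[ℤ] A₀) ≤ rate K₀ (K₀ ⊗[ℤ] A₀) + η := by
  by_contra hcon
  push Not at hcon
  choose q hq K iF iC iP hlt using hcon
  let U : Ultrafilter ℕ := hyperfilter ℕ
  have hchar : CharP (UK U K) 0 := charZero_ultra K q hq
  have hcz : CharZero (UK U K) := CharP.charP_to_charZero _
  have hfin := Module.Finite.of_basis (c.baseChange K₀)
  have hloc := (Ad_bc K₀ hc).isLocal
  have hr := one_le_rate (k := K₀) (K₀ ⊗[ℤ] A₀)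
  obtain ⟨n, hn, W, hW1, hW2⟩ := one_cert (c.baseChange K₀) (Ad_bc K₀ hc) η hη 1
  rw [TT_int] at hW1
  -- descent to the algebraic numbers
  obtain ⟨⟨j1⟩, ⟨j2⟩⟩ : Nonempty (Q →+* K₀) ∧ Nonempty (Q →+* UK U K) := ⟨emb_Q K₀, emb_Q _⟩
  let _ : Algebra Q K₀ := j1.toAlgebra
  have h1 : Cert Q (fun t j => ((TT c t j : ℤ) : Q)) n ((l + 1) * n) W := by
    refine cert_descent (L := K₀) _ ?_
    have h2 : (fun (t : Fin l → ℕ) (j : Fin (l + 1)) =>
        algebraMap Q K₀ ((TT c t j : ℤ) : Q)) = fun t j => ((TT c t j : ℤ) : K₀) := by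
      funext t j
      exact map_intCast (algebraMap Q K₀) _
    rw [h2]
    exact hW1
  have h2 : Cert (UK U K) (TT (BU (fun i => c.baseChange (K i)) U).basis) n ((l + 1) * n) W := by
    have h3 := cert_map j2 _ h1
    have h4 : (fun (t : Fin l → ℕ) (j : Fin (l + 1)) => j2 ((TT c t j : ℤ) : Q)) =
        TT (BU (fun i => c.baseChange (K i)) U).basis := by
      funext t j
      have h5 : TT (BU (fun i => c.baseChange (K i)) U).basis t j =
          mk U (fun i => TT (c.baseChange (K i)) t j) := cU_TT _ U t j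
      rw [h5]
      have h6 : (fun i => TT (c.baseChange (K i)) t j : PP K) = ((TT c t j : ℤ) : PP K) := by
        apply pp_ext
        intro i
        have h7 : ((TT c t j : ℤ) : PP K) i = ((TT c t j : ℤ) : K i) := map_intCast (ev K i) _
        rw [h7, TT_int]
      rw [h6]
      have h8 : mk U (K := K) ((TT c t j : ℤ) : PP K) = ((TT c t j : ℤ) : UK U K) :=
        map_intCast (Ideal.Quotient.mk (UI U K)) _
      rw [h8]
      exact map_intCast j2 _
    rw [h4] at h3
    exact h3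
  obtain ⟨i, hi⟩ := (BU_cert (fun i => c.baseChange (K i)) U h2).exists
  have h3 : rate (K i) (K i ⊗[ℤ] A₀) ≤ rate K₀ (K₀ ⊗[ℤ] A₀) + η :=
    good_rate (c.baseChange (K i)) (Ad_bc (K i) hc) hn (by linarith) ⟨W, hi, hW2⟩
  exact absurd (hlt i) (not_lt.2 h3)

end red

end Pool.Agent.K7.H10.GR
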