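import Pool.Agent.K7.H10.GR.Clo
import Pool.Agent.K7.H10.GR.Lim

/-!
# The closure theorem for ultraproducts
-/

set_option autoImplicit false
set_option linter.unusedSectionVars false

namespace Pool.Agent.K7.H10.GR

open scoped TensorProduct Topology
open Pool.Agent.H826R3.SM Pool.Agent.TH671.DU Pool.Agent.N86.SQ
open MvPolynomial Filter

/-- algebras with a basis -/
structure BA (L : Type) [Field L] (d : ℕ) where
  carrier : Type
  ring : CommRing carrier
  alg : Algebra L carrier
  basis : Module.Basis (Fin d) L carrier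

attribute [instance] BA.ring BA.alg

/-- the family of one algebra and a sequence of algebras -/
def gg {L : Type} [Field L] {d : ℕ} {I : Type} (B0 : BA L d) (B : I → BA L d) : Option I → BA L d
  | none => B0
  | some i => B i

theorem closure_rate' {L : Type} [Field L] [IsAlgClosed L] {d : ℕ} {I : Type} (B0 : BA L d)
    (hloc : IsLocalRing B0.carrier) (B : I → BA L d)
    (hcl : ∀ Q : MvPolynomial (PIdx d) L, (∀ i, eval (parR (B i).basis) Q = 0) →
      eval (parR B0.basis) Q = 0) (x : ℝ) (hx : ∀ i, rate L (B i).carrier ≤ x) :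
    rate L B0.carrier ≤ x := by
  have h : IsLocalRing (gg B0 B none).carrier := hloc
  exact closure_rate (k := L) (Y := Option I) (E := fun o => (gg B0 B o).carrier)
    (fun o => (gg B0 B o).basis) none (ZI := I) (fun i => some i) hcl hx

/-- bundled ultraproduct -/
noncomputable def BU {K A : ℕ → Type} [∀ i, Field (K i)] [∀ i, CommRing (A i)]
    [∀ i, Algebra (K i) (A i)] {l : ℕ} (c : ∀ i, Module.Basis (Fin (l + 1)) (K i) (A i))
    (U : Ultrafilter ℕ) : BA (UK U K) (l + 1) := ⟨UA U K A, inferInstance, inferInstance, cU c U⟩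

/-- bundled base change -/
noncomputable def BB {k : Type} [Field k] (L : Type) [Field L] [Algebra k L] {A : Type}
    [CommRing A] [Algebra k A] {d : ℕ} (c : Module.Basis (Fin d) k A) : BA L d :=
  ⟨L ⊗[k] A, inferInstance, inferInstance, c.baseChange L⟩

theorem closure_step {k : Type} [Field k] [IsAlgClosed k] (U : Ultrafilter ℕ) {A : ℕ → Type}
    [∀ i, CommRing (A i)] [∀ i, Algebra k (A i)] {l : ℕ}
    (c : ∀ i, Module.Basis (Fin (l + 1)) k (A i)) (hc : ∀ i, Ad (c i)) (x : ℝ)
    (h : ∀ᶠ i in (U : Filter ℕ), rate k (A i) ≤ x) :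
    rate (UK U fun _ => k) (BU (K := fun _ => k) c U).carrier ≤ x := by
  let S : Set ℕ := {i | rate k (A i) ≤ x}
  refine closure_rate' (BU (K := fun _ => k) c U)
    (cU_Ad (K := fun _ => k) c U hc).isLocal
    (fun i : S => BB (UK U fun _ => k) (c i)) ?_ x ?_
  · intro Q hQ
    have h1 := closure_ultra U (fun i z => parR (c i) z) S h Q (fun i hi => by
      have h2 := hQ ⟨i, hi⟩
      have h3 : parR (BB (UK U fun _ => k) (c i)).basis =
          (fun z => algebraMap k (UK U fun _ => k) (parR (c i) z)) := by
        funext z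
        exact parR_bc (UK U fun _ => k) (c i) z
      rw [← h3]
      exact h2)
    have h4 : parR (BU (K := fun _ => k) c U).basis =
        (fun z => mk U (K := fun _ => k) (fun i => parR (c i) z)) := by
      funext z
      exact cU_par (K := fun _ => k) c U z
    rw [h4]
    exact h1
  · intro i
    have hfin := Module.Finite.of_basis (c i)
    have hloc2 := (hc i).isLocal
    exact (rate_baseChange_le k (UK U fun _ => k) (A i)).trans i.2

end Pool.Agent.K7.H10.GR
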