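import Pool.Agent.K7.H10.GR.Unif
import Pool.Agent.K7.H10.GR.Big
import Pool.Agent.K7.H10.GR.Loc

/-!
# Change of the ground field, uniform certificates over all fields
-/

set_option autoImplicit false
set_option linter.unusedSectionVars false

namespace Pool.Agent.K7.H10.GR

open scoped TensorProduct Topology
open Pool.Agent.H826R3.SM Pool.Agent.TH671.DU Pool.Agent.N86.SQ
open MvPolynomial Filter

section descent

variable {k L : Type} [Field k] [IsAlgClosed k] [Field L] [Algebra k L] {A : Type}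
  [CommRing A] [Algebra k A] {l : ℕ} (c : Module.Basis (Fin (l + 1)) k A)

theorem good_descent {n : ℕ} {y : ℝ} (h : Good L (c.baseChange L) n y) : Good k c n y := by
  obtain ⟨W, hW, hW2⟩ := h
  refine ⟨W, cert_descent (L := L) (TT c) ?_, hW2⟩
  have h1 : TT (c.baseChange L) = fun t j => algebraMap k L (TT c t j) := by
    funext t j
    exact TT_bc L c t j
  rwa [h1] at hW

theorem good_rate (hc : Ad c) {n : ℕ} (hn : 1 ≤ n) {y : ℝ} (hy : 0 ≤ y) (h : Good k c n y) :
    rate k A ≤ y := by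
  have := Module.Finite.of_basis c
  have := hc.isLocal
  obtain ⟨W, hW, hW2⟩ := h
  have h1 := rate_of_cert c hc hW
  have h2 := rate_pow_le (k := k) A n
  have h3 : rate k A ^ n ≤ y ^ n :=
    (h2.trans (by exact_mod_cast h1 : ((mdeg k (Pow k A n) : ℕ) : ℝ) ≤ _)).trans hW2
  exact le_of_pow_le_pow_left₀ (by omega) hy h3

theorem rate_bc (hc : Ad c) [IsAlgClosed L] : rate L (L ⊗[k] A) = rate k A := by
  have := Module.Finite.of_basis c
  have := hc.isLocal
  refine le_antisymm (rate_baseChange_le k L A) (le_of_forall_pos_le_add fun η hη => ?_)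
  have hc' := Ad_bc L hc
  have := hc'.isLocal
  have := Module.Finite.of_basis (c.baseChange L)
  have hr := one_le_rate (k := L) (L ⊗[k] A)
  obtain ⟨n, hn, hG⟩ := one_cert (c.baseChange L) hc' η hη 1
  exact good_rate c hc hn (by linarith) (good_descent c hG)

end descent

/-- **The growth rate does not change under extensions of algebraically closed fields.** -/
theorem rate_field (k L A : Type) [Field k] [IsAlgClosed k] [Field L] [IsAlgClosed L] [Algebra k L]
    [CommRing A] [Algebra k A] [Module.Finite k A] [IsLocalRing A] :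
    rate L (L ⊗[k] A) = rate k A := by
  obtain ⟨l, hl⟩ : ∃ l, Module.finrank k A = l + 1 :=
    ⟨Module.finrank k A - 1, (Nat.succ_pred_eq_of_pos Module.finrank_pos).symm⟩
  obtain ⟨c, hc⟩ := exists_ad (k := k) (A := A) l hl
  exact rate_bc c hc

/-- **Uniform certificates over all fields over `F`.** -/
theorem unif_all (F : Type) [Field F] (l : ℕ) (η : ℝ) (hη : 0 < η) :
    ∃ N : ℕ, ∀ (k : Type) [Field k] [IsAlgClosed k] [Algebra F k] (A : Type) [CommRing A]
      [Algebra k A] (c : Module.Basis (Fin (l + 1)) k A), Ad c →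
      ∃ n, 1 ≤ n ∧ n ≤ N ∧ Good k c n (rate k A + η) := by
  by_contra hcon
  push Not at hcon
  choose K iF iC iA A iR iA2 c hc hbad using hcon
  obtain ⟨Ω, _, _, _, hΩ⟩ := exists_big F K
  have e := fun i => (hΩ i).some
  obtain ⟨N, hN⟩ := unif_one Ω l η hη
  let _ : Algebra (K N) Ω := (e N).toRingHom.toAlgebra
  obtain ⟨n, hn1, hn2, hG⟩ := hN (Ω ⊗[K N] A N) ((c N).baseChange Ω) (Ad_bc Ω (hc N))
  rw [rate_bc (c N) (hc N)] at hG
  exact hbad N n hn1 hn2 (good_descent (c N) hG)

/-- **The gap above `d`, uniform over all fields over `F`.** -/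
theorem gap_all (F : Type) [Field F] (l : ℕ) : ∃ ε : ℝ, 0 < ε ∧ ∀ (k : Type) [Field k]
    [IsAlgClosed k] [Algebra F k] (A : Type) [CommRing A] [Algebra k A]
    (c : Module.Basis (Fin (l + 1)) k A), Ad c → rate k A < (l + 1 : ℕ) + ε →
      rate k A = (l + 1 : ℕ) := by
  by_contra hcon
  push Not at hcon
  have hcon' : ∀ i : ℕ, ∃ (k : Type) (_ : Field k) (_ : IsAlgClosed k) (_ : Algebra F k) (A : Type)
    (_ : CommRing A) (_ : Algebra k A) (c : Module.Basis (Fin (l + 1)) k A), Ad c ∧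
      rate k A < (l + 1 : ℕ) + 1 / ((i : ℝ) + 1) ∧ rate k A ≠ (l + 1 : ℕ) := by
    intro i
    obtain ⟨k, ik, iC, iF, A, iR, iA, c, h⟩ := hcon (1 / ((i : ℝ) + 1)) (by positivity)
    exact ⟨k, ik, iC, iF, A, iR, iA, c, h⟩
  choose K iF iC iA A iR iA2 c hc hlt hne using hcon'
  obtain ⟨Ω, _, _, _, hΩ⟩ := exists_big F K
  have e := fun i => (hΩ i).some
  obtain ⟨ε, hε, hgap⟩ := gap (k := Ω) (l + 1)
  obtain ⟨i, hi⟩ := exists_nat_one_div_lt hε
  let _ : Algebra (K i) Ω := (e i).toRingHom.toAlgebra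
  have hc' := Ad_bc Ω (hc i)
  have := hc'.isLocal
  have := Module.Finite.of_basis ((c i).baseChange Ω)
  have hfr : Module.finrank Ω (Ω ⊗[K i] A i) = l + 1 := by
    rw [Module.finrank_eq_card_basis ((c i).baseChange Ω), Fintype.card_fin]
  have hr : rate Ω (Ω ⊗[K i] A i) = rate (K i) (A i) := rate_bc (c i) (hc i)
  have h1 : rate Ω (Ω ⊗[K i] A i) < (l + 1 : ℕ) + ε := by
    rw [hr]
    exact (hlt i).trans (by linarith)
  have h2 : QOne Ω (Ω ⊗[K i] A i) := by
    rw [hgap _ hfr]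
    have h3 := h1
    rw [rate_eq] at h3
    obtain ⟨n, hn⟩ := exists_lt_of_ciInf_lt h3
    refine ⟨n + 1, by omega, ?_⟩
    have h4 : (Module.finrank Ω (Ω ⊗[K i] A i) : ℝ) ^ (n + 1) +
        defect Ω (Pow Ω (Ω ⊗[K i] A i) (n + 1)) = mdeg Ω (Pow Ω (Ω ⊗[K i] A i) (n + 1)) := by
      rw [← fadd Ω (Pow Ω (Ω ⊗[K i] A i) (n + 1)), finrank_Pow']
      push_cast
      rfl
    rw [hfr] at h4
    rw [h4]
    have h5 := pow_lt_pow_left₀ hn (by positivity) (Nat.succ_ne_zero n)
    refine lt_of_eq_of_lt ?_ h5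
    rw [← Real.rpow_natCast, ← Real.rpow_mul (Nat.cast_nonneg _)]
    push_cast
    rw [one_div, inv_mul_cancel₀ (by positivity), Real.rpow_one]
  rw [qOne_iff_rate, hfr, hr] at h2
  exact hne i h2

end Pool.Agent.K7.H10.GR
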