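import Pool.Agent.K7.H10.GR.Cert

/-!
# Ultraproducts
-/

set_option autoImplicit false
set_option linter.unusedSectionVars false

namespace Pool.Agent.K7.H10.GR

open scoped TensorProduct
open Pool.Agent.H826R3.SM Pool.Agent.TH671.DU Pool.Agent.N86.SQ
open Filter

/-- products of rings -/
def PP (A : ℕ → Type) : Type := ∀ i, A i

noncomputable instance instRingPP (A : ℕ → Type) [∀ i, CommRing (A i)] : CommRing (PP A) :=
  inferInstanceAs (CommRing (∀ i, A i))

/-- the component -/
def ev (A : ℕ → Type) [∀ i, CommRing (A i)] (i : ℕ) : PP A →+* A i := Pi.evalRingHom A i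

theorem pp_ext {A : ℕ → Type} {x y : PP A} (h : ∀ i, x i = y i) : x = y := funext h

section ultra

variable (U : Ultrafilter ℕ) (K : ℕ → Type) [∀ i, Field (K i)]

/-- the elements that vanish almost everywhere -/
def UI : Ideal (PP K) where
  carrier := {x | ∀ᶠ i in (U : Filter ℕ), x i = 0}
  zero_mem' := Eventually.of_forall fun i => rfl
  add_mem' := by
    intro x y hx hy
    filter_upwards [hx, hy] with i h1 h2
    change x i + y i = 0
    rw [h1, h2, add_zero]
  smul_mem' := by
    intro x y hy
    filter_upwards [hy] with i h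
    change x i * y i = 0
    rw [h, mul_zero]

theorem mem_UI {x : PP K} : x ∈ UI U K ↔ ∀ᶠ i in (U : Filter ℕ), x i = 0 := Iff.rfl

instance instMax : (UI U K).IsMaximal := by
  classical
  rw [Ideal.isMaximal_iff]
  refine ⟨?_, ?_⟩
  · intro h
    rw [mem_UI] at h
    obtain ⟨i, hi⟩ := h.exists
    exact one_ne_zero hi
  · intro J x hJ hx hxJ
    rw [mem_UI, ← Ultrafilter.eventually_not] at hx
    let y : PP K := fun i => (x i)⁻¹
    have h1 : (1 : PP K) - y * x ∈ UI U K := by
      rw [mem_UI]
      filter_upwards [hx] with i hi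
      change 1 - (x i)⁻¹ * x i = 0
      rw [inv_mul_cancel₀ hi, sub_self]
    have h2 := J.add_mem (hJ h1) (J.mul_mem_left y hxJ)
    rwa [sub_add_cancel] at h2

/-- the ultraproduct of the fields -/
abbrev UK : Type := PP K ⧸ UI U K

noncomputable instance instFieldUK : Field (UK U K) := Ideal.Quotient.field (UI U K)

variable {K} in
/-- the class of a family of elements -/
noncomputable def mk (x : PP K) : UK U K := Ideal.Quotient.mk (UI U K) x

variable {K} in
theorem mk_eq {x y : PP K} : mk U x = mk U y ↔ ∀ᶠ i in (U : Filter ℕ), x i = y i := by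
  unfold mk
  rw [Ideal.Quotient.eq, mem_UI]
  constructor
  · intro h
    filter_upwards [h] with i hi
    exact sub_eq_zero.1 hi
  · intro h
    filter_upwards [h] with i hi
    exact sub_eq_zero.2 hi

theorem mk_surj (x : UK U K) : ∃ y : PP K, mk U y = x := Ideal.Quotient.mk_surjective x

variable [∀ i, IsAlgClosed (K i)]

instance instAC : IsAlgClosed (UK U K) := by
  classical
  apply IsAlgClosed.of_exists_root
  intro p hp hirr
  have hdeg : 0 < p.natDegree := hirr.natDegree_pos
  have hl : p ∈ Polynomial.lifts (Ideal.Quotient.mk (UI U K)) := by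
    rw [Polynomial.lifts_iff_coeff_lifts]
    intro n
    exact Ideal.Quotient.mk_surjective _
  obtain ⟨q, hq1, hq2, hq3⟩ := Polynomial.lifts_and_natDegree_eq_and_monic hl hp
  have hroot : ∀ i, ∃ r : K i, (q.map (ev K i)).eval r = 0 := by
    intro i
    apply IsAlgClosed.exists_root
    have h1 : (q.map (ev K i)).natDegree = q.natDegree := hq3.natDegree_map _
    intro h2
    have h3 : (q.map (ev K i)).natDegree = 0 := Polynomial.natDegree_eq_of_degree_eq_some h2
    omega
  obtain ⟨r, hr⟩ : ∃ r : PP K, ∀ i, (q.map (ev K i)).eval (r i) = 0 :=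
    ⟨fun i => (hroot i).choose, fun i => (hroot i).choose_spec⟩
  refine ⟨mk U r, ?_⟩
  have h1 : Polynomial.eval (mk U r) p = Ideal.Quotient.mk (UI U K) (Polynomial.eval r q) := by
    rw [← hq1, Polynomial.eval_map, ← Polynomial.eval₂_hom]
    rfl
  have h2 : Polynomial.eval r q = 0 := by
    apply pp_ext
    intro i
    have h3 : ev K i (Polynomial.eval r q) = (q.map (ev K i)).eval (ev K i r) := by
      rw [Polynomial.eval_map, ← Polynomial.eval₂_hom]
    exact h3.trans (hr i)
  rw [h1, h2, map_zero]

end ultra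

section alg

variable (K A : ℕ → Type) [∀ i, Field (K i)] [∀ i, CommRing (A i)] [∀ i, Algebra (K i) (A i)]

/-- the structure map of the product -/
def pmap : PP K →+* PP A where
  toFun x i := algebraMap (K i) (A i) (x i)
  map_one' := pp_ext fun _ => map_one _
  map_mul' _ _ := pp_ext fun _ => map_mul _ _ _
  map_zero' := pp_ext fun _ => map_zero _
  map_add' _ _ := pp_ext fun _ => map_add _ _ _

noncomputable instance instAlgPP : Algebra (PP K) (PP A) := (pmap K A).toAlgebra

variable {K A} in
theorem smul_pp (x : PP K) (y : PP A) (i : ℕ) : (x • y) i = x i • y i := by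
  rw [Algebra.smul_def, Algebra.smul_def]
  rfl

variable {K A} {d : ℕ} (c : ∀ i, Module.Basis (Fin d) (K i) (A i))

theorem sum_pp {ι : Type} (s : Finset ι) (f : ι → PP A) (i : ℕ) :
    (∑ j ∈ s, f j) i = ∑ j ∈ s, f j i := map_sum (ev A i) f s

theorem prod_pp {ι : Type} (s : Finset ι) (f : ι → PP A) (i : ℕ) :
    (∏ j ∈ s, f j) i = ∏ j ∈ s, f j i := map_prod (ev A i) f s

/-- coordinates -/
noncomputable def coordPP : PP A ≃ₗ[PP K] (Fin d → PP K) where
  toFun y j := fun i => (c i).repr (y i) j
  invFun f := fun i => ∑ j, f j i • c i j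
  map_add' x y := by
    funext j
    apply pp_ext
    intro i
    change (c i).repr (x i + y i) j = _
    rw [map_add]
    rfl
  map_smul' r x := by
    funext j
    apply pp_ext
    intro i
    change (c i).repr ((r • x) i) j = _
    rw [smul_pp, map_smul]
    rfl
  left_inv x := by
    apply pp_ext
    intro i
    exact (c i).sum_repr (x i)
  right_inv f := by
    funext j
    apply pp_ext
    intro i
    change (c i).repr (∑ j, f j i • c i j) j = f j i
    rw [(c i).repr_sum_self]

/-- the basis of the product -/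
noncomputable def cP : Module.Basis (Fin d) (PP K) (PP A) := Module.Basis.ofEquivFun (coordPP c)

theorem cP_repr (y : PP A) (j : Fin d) (i : ℕ) : (cP c).repr y j i = (c i).repr (y i) j := rfl

theorem cP_apply (j : Fin d) (i : ℕ) : cP c j i = c i j := by
  classical
  unfold cP
  rw [Module.Basis.coe_ofEquivFun]
  change ∑ j', (Pi.single j (1 : PP K) : Fin d → PP K) j' i • c i j' = c i j
  rw [Finset.sum_eq_single j]
  · rw [Pi.single_eq_same]
    exact one_smul _ _
  · intro j' _ hj
    rw [Pi.single_eq_of_ne hj]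
    exact zero_smul _ _
  · intro h
    exact absurd (Finset.mem_univ j) h

end alg

section std

variable {K A : ℕ → Type} [∀ i, Field (K i)] [∀ i, CommRing (A i)] [∀ i, Algebra (K i) (A i)]
  {l : ℕ} (c : ∀ i, Module.Basis (Fin (l + 1)) (K i) (A i))

theorem cP_TT (t : Fin l → ℕ) (j : Fin (l + 1)) (i : ℕ) : TT (cP c) t j i = TT (c i) t j := by
  unfold TT
  rw [cP_repr, prod_pp]
  congr 2
  refine Finset.prod_congr rfl fun v _ => ?_
  have h : (cP c v.succ ^ t v) i = (cP c v.succ i) ^ t v := map_pow (ev A i) _ _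
  rw [h, cP_apply]

theorem cP_par (z : PIdx (l + 1)) (i : ℕ) : parR (cP c) z i = parR (c i) z := by
  rcases z with z | z
  · change (cP c).repr (cP c z.1 * cP c z.2.1) z.2.2 i = (c i).repr (c i z.1 * c i z.2.1) z.2.2
    rw [cP_repr]
    have h : (cP c z.1 * cP c z.2.1) i = cP c z.1 i * cP c z.2.1 i := map_mul (ev A i) _ _
    rw [h, cP_apply, cP_apply]
  · change (cP c).repr 1 z i = (c i).repr 1 z
    rw [cP_repr]
    rfl

theorem cP_Ad (h : ∀ i, Ad (c i)) : Ad (cP c) := by
  refine ⟨pp_ext fun i => ?_, fun f => pp_ext fun i => ?_⟩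
  · rw [cP_apply, (h i).1]
    rfl
  · rw [prod_pp, Finset.prod_congr rfl fun j _ => cP_apply c (f j).succ i]
    exact (h i).2 f

variable (U : Ultrafilter ℕ)

/-- the ultraproduct of the algebras -/
abbrev UA (K A : ℕ → Type) [∀ i, Field (K i)] [∀ i, CommRing (A i)] [∀ i, Algebra (K i) (A i)] :
    Type := UK U K ⊗[PP K] PP A

/-- its basis -/
noncomputable def cU : Module.Basis (Fin (l + 1)) (UK U K) (UA U K A) := (cP c).baseChange (UK U K)

theorem cU_TT (t : Fin l → ℕ) (j : Fin (l + 1)) :
    TT (cU c U) t j = mk U (fun i => TT (c i) t j) := by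
  unfold cU
  rw [TT_bc]
  change mk U (TT (cP c) t j) = _
  congr 1
  exact pp_ext fun i => cP_TT c t j i

theorem cU_par (z : PIdx (l + 1)) : parR (cU c U) z = mk U (fun i => parR (c i) z) := by
  unfold cU
  rw [parR_bc]
  change mk U (parR (cP c) z) = _
  congr 1
  exact pp_ext fun i => cP_par c z i

theorem cU_Ad (h : ∀ i, Ad (c i)) : Ad (cU c U) := Ad_bc _ (cP_Ad c h)

/-- **Certificates of the ultraproduct are certificates of almost all factors.** -/
theorem cert_ultra {n m W : ℕ} (h : Cert (UK U K) (TT (cU c U)) n m W) :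
    ∀ᶠ i in (U : Filter ℕ), Cert (K i) (TT (c i)) n m W := by
  classical
  obtain ⟨p, cf, h⟩ := h
  choose p' hp' using fun w v => mk_surj U K (p w v)
  choose cf' hcf' using fun J e w => mk_surj U K (cf J e w)
  have hfin : {s : Fin n × Fin l →₀ ℕ | s.degree ≤ m}.Finite := Finsupp.finite_of_degree_le m
  have key : ∀ s ∈ {s : Fin n × Fin l →₀ ℕ | s.degree ≤ m}, ∀ᶠ i in (U : Filter ℕ),
      ∀ (hs : s.degree ≤ m) (J : Fin n → Fin (l + 1)),
      ∏ i', TT (c i) (fun v => s (i', v)) (J i') =
        ∑ w, cf' J ⟨s.degree, Nat.lt_succ_of_le hs⟩ w i * ∏ v, p' w v i ^ s v := by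
    intro s hs
    have h1 : ∀ J : Fin n → Fin (l + 1), ∀ᶠ i in (U : Filter ℕ),
        ∏ i', TT (c i) (fun v => s (i', v)) (J i') =
        ∑ w, cf' J ⟨s.degree, Nat.lt_succ_of_le hs⟩ w i * ∏ v, p' w v i ^ s v := by
      intro J
      have h2 := h s hs J
      let X : PP K := ∏ i', (fun i => TT (c i) (fun v => s (i', v)) (J i') : PP K)
      let Y : PP K := ∑ w, cf' J ⟨s.degree, Nat.lt_succ_of_le hs⟩ w * ∏ v, p' w v ^ s v
      have hX : mk U X = ∏ i', TT (cU c U) (fun v => s (i', v)) (J i') := by
        have : mk U X = ∏ i', mk U (fun i => TT (c i) (fun v => s (i', v)) (J i')) :=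
          map_prod (Ideal.Quotient.mk (UI U K)) _ _
        rw [this]
        exact Finset.prod_congr rfl fun i' _ => (cU_TT c U _ _).symm
      have hY : mk U Y = ∑ w, cf J ⟨s.degree, Nat.lt_succ_of_le hs⟩ w * ∏ v, p w v ^ s v := by
        have : mk U Y = ∑ w, mk U (cf' J ⟨s.degree, Nat.lt_succ_of_le hs⟩ w) *
            ∏ v, mk U (p' w v) ^ s v := by
          change Ideal.Quotient.mk (UI U K) (∑ w, cf' J ⟨s.degree, Nat.lt_succ_of_le hs⟩ w *
            ∏ v, p' w v ^ s v) = _
          rw [map_sum]
          refine Finset.sum_congr rfl fun w _ => ?_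
          rw [map_mul, map_prod]
          simp only [map_pow]
          rfl
        rw [this]
        refine Finset.sum_congr rfl fun w _ => ?_
        rw [hcf']
        simp only [hp']
      rw [← hX, ← hY] at h2
      filter_upwards [(mk_eq U).1 h2] with i hi
      have hXi : X i = ∏ i', TT (c i) (fun v => s (i', v)) (J i') := prod_pp _ _ i
      have hYi : Y i = ∑ w, cf' J ⟨s.degree, Nat.lt_succ_of_le hs⟩ w i * ∏ v, p' w v i ^ s v := by
        change ev K i (∑ w, cf' J ⟨s.degree, Nat.lt_succ_of_le hs⟩ w * ∏ v, p' w v ^ s v) = _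
        rw [map_sum]
        refine Finset.sum_congr rfl fun w _ => ?_
        rw [map_mul, map_prod]
        simp only [map_pow]
        rfl
      rw [← hXi, ← hYi, hi]
    filter_upwards [eventually_all.2 h1] with i hi hs J using hi J
  filter_upwards [(hfin.eventually_all).2 key] with i hi
  exact ⟨fun w v => p' w v i, fun J e w => cf' J e w i, fun s hs J => hi s hs hs J⟩

end std

end Pool.Agent.K7.H10.GR
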