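import Pool.Agent.K7.H10.GR.Step

/-!
# Uniform certificates over one field
-/

set_option autoImplicit false
set_option linter.unusedSectionVars false

namespace Pool.Agent.K7.H10.GR

open scoped TensorProduct Topology
open Pool.Agent.H826R3.SM Pool.Agent.TH671.DU Pool.Agent.N86.SQ
open MvPolynomial Filter

theorem BU_Ad {K A : ℕ → Type} [∀ i, Field (K i)] [∀ i, CommRing (A i)]
    [∀ i, Algebra (K i) (A i)] {l : ℕ} (c : ∀ i, Module.Basis (Fin (l + 1)) (K i) (A i))
    (U : Ultrafilter ℕ) (h : ∀ i, Ad (c i)) : Ad (BU c U).basis := cU_Ad c U h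

theorem BU_cert {K A : ℕ → Type} [∀ i, Field (K i)] [∀ i, CommRing (A i)]
    [∀ i, Algebra (K i) (A i)] {l : ℕ} (c : ∀ i, Module.Basis (Fin (l + 1)) (K i) (A i))
    (U : Ultrafilter ℕ) {n m W : ℕ} (h : Cert (UK U K) (TT (BU c U).basis) n m W) :
    ∀ᶠ i in (U : Filter ℕ), Cert (K i) (TT (c i)) n m W := cert_ultra c U h

/-- certificates with a good bound -/
def Good (k : Type) [Field k] {A : Type} [CommRing A] [Algebra k A] {l : ℕ}
    (c : Module.Basis (Fin (l + 1)) k A) (n : ℕ) (y : ℝ) : Prop :=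
  ∃ W : ℕ, Cert k (TT c) n ((l + 1) * n) W ∧ ((W * ((l + 1) * n + 2) : ℕ) : ℝ) ≤ y ^ n

/-- the argument for one sequence -/
theorem unif_seq (k : Type) [Field k] [IsAlgClosed k] (l : ℕ) (η : ℝ) (hη : 0 < η)
    (A : ℕ → Type) [∀ i, CommRing (A i)] [∀ i, Algebra k (A i)]
    (c : ∀ i, Module.Basis (Fin (l + 1)) k (A i)) (hc : ∀ i, Ad (c i))
    (hbad : ∀ i n, 1 ≤ n → n ≤ i → ¬ Good k (c i) n (rate k (A i) + η)) : False := by
  let U : Ultrafilter ℕ := hyperfilter ℕ
  obtain ⟨x, hx⟩ : ∃ x : ℝ, x = rate (UK U fun _ => k) (BU (K := fun _ => k) c U).carrier :=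
    ⟨_, rfl⟩
  have hfin' := Module.Finite.of_basis (BU (K := fun _ => k) c U).basis
  have hAd := BU_Ad (K := fun _ => k) c U hc
  have hloc' := hAd.isLocal
  have hr' := one_le_rate (k := UK U fun _ => k) (BU (K := fun _ => k) c U).carrier
  rw [← hx] at hr'
  obtain ⟨n, hn, W, hW1, hW2⟩ := one_cert (BU (K := fun _ => k) c U).basis hAd (η / 2)
    (by linarith) 1
  rw [← hx] at hW2
  have h1 := BU_cert (K := fun _ => k) c U hW1
  have h2 : ∀ᶠ i in (U : Filter ℕ), rate k (A i) ≤ x - η / 2 := by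
    have h3 : ∀ᶠ i in (U : Filter ℕ), n ≤ i :=
      (Nat.hyperfilter_le_atTop) (eventually_ge_atTop n)
    filter_upwards [h1, h3] with i hi1 hi2
    by_contra hlt
    push Not at hlt
    apply hbad i n hn hi2
    refine ⟨W, hi1, hW2.trans ?_⟩
    exact pow_le_pow_left₀ (by linarith) (by linarith) n
  have h3 := closure_step U c hc _ h2
  rw [← hx] at h3
  linarith

/-- **Uniform certificates over one field.** -/
theorem unif_one (k : Type) [Field k] [IsAlgClosed k] (l : ℕ) (η : ℝ) (hη : 0 < η) :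
    ∃ N : ℕ, ∀ (A : Type) [CommRing A] [Algebra k A] (c : Module.Basis (Fin (l + 1)) k A), Ad c →
      ∃ n, 1 ≤ n ∧ n ≤ N ∧ Good k c n (rate k A + η) := by
  by_contra hcon
  push Not at hcon
  choose A iR iA c hc hbad using hcon
  exact unif_seq k l η hη A c hc hbad

end Pool.Agent.K7.H10.GR
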