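import Pool.Agent.K7.H10.GR.Red

/-!
# The set of all growth rates in a given characteristic
-/

set_option autoImplicit false
set_option linter.unusedSectionVars false

namespace Pool.Agent.K7.H10.GR

open scoped TensorProduct Topology
open Pool.Agent.H826R3.SM Pool.Agent.TH671.DU Pool.Agent.N86.SQ
open MvPolynomial Filter

/-- the growth rates of the local schemes of degree `d` over all algebraically closed fields of
characteristic `p` -/
def allRates (p d : ℕ) : Set ℝ :=
  {x | ∃ (k : Type) (_ : Field k) (_ : IsAlgClosed k), CharP k p ∧ x ∈ growthRates k d}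

theorem allRates_isWF (p d : ℕ) : (allRates p d).IsWF := by
  obtain ⟨F, _, hF⟩ := exists_prime p
  rw [Set.isWF_iff_no_descending_seq]
  intro f hf hmem
  choose K iF iC iP A iR iA iM iL hd hr using hmem
  let _ : ∀ i, Algebra F (K i) := fun i => (hF (K i)).some
  obtain ⟨Ω, _, _, _, hΩ⟩ := exists_big F K
  have e := fun i => (hΩ i).some
  refine Set.isWF_iff_no_descending_seq.1 (growthRates_isWF (k := Ω) d) f hf fun i => ?_
  let _ : Algebra (K i) Ω := (e i).toRingHom.toAlgebra
  obtain ⟨l, rfl⟩ : ∃ l, d = l + 1 := by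
    have h1 : 0 < Module.finrank (K i) (A i) := Module.finrank_pos
    have h2 := hd i
    exact ⟨d - 1, by omega⟩
  obtain ⟨c, hc⟩ := exists_ad (k := K i) (A := A i) l (hd i)
  refine ⟨Ω ⊗[K i] A i, inferInstance, inferInstance, Module.Finite.of_basis (c.baseChange Ω),
    (Ad_bc Ω hc).isLocal, ?_, ?_⟩
  · rw [Module.finrank_eq_card_basis (c.baseChange Ω), Fintype.card_fin]
  · rw [rate_bc c hc, hr i]

/-- the truncated polynomial ring -/
theorem exists_local (k : Type) [Field k] (l : ℕ) : ∃ (A : Type) (_ : CommRing A)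
    (_ : Algebra k A) (c : Module.Basis (Fin (l + 1)) k A), Ad c := by
  let B := AdjoinRoot.powerBasis' (monic_tr (k := k) l)
  have hdim : B.dim = l + 1 := by
    change (Polynomial.X ^ (l + 1) : Polynomial k).natDegree = l + 1
    rw [Polynomial.natDegree_X_pow]
  let c : Module.Basis (Fin (l + 1)) k (Tr k l) := B.basis.reindex (finCongr hdim)
  have hc : ∀ j, c j = (AdjoinRoot.root (Polynomial.X ^ (l + 1) : Polynomial k)) ^ (j : ℕ) := by
    intro j
    rw [Module.Basis.reindex_apply, B.basis_eq_pow]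
    rfl
  refine ⟨Tr k l, inferInstance, inferInstance, c, ?_, fun f => ?_⟩
  · rw [hc]
    exact pow_zero _
  · have h1 : ∏ i, c (f i).succ = (AdjoinRoot.root (Polynomial.X ^ (l + 1) : Polynomial k)) ^
        ∑ i, ((f i).succ : ℕ) := by
      rw [← Finset.prod_pow_eq_pow_sum]
      exact Finset.prod_congr rfl fun i _ => hc _
    have h2 : l + 1 ≤ ∑ i, ((f i).succ : ℕ) := by
      calc l + 1 = ∑ _i : Fin (l + 1), 1 := by simp
        _ ≤ _ := Finset.sum_le_sum fun i _ => by rw [Fin.val_succ]; omega
    obtain ⟨j, hj⟩ := Nat.exists_eq_add_of_le h2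
    rw [h1, hj, pow_add, root_tr, zero_mul]

/-- **The maximal growth rate is attained.** -/
theorem exists_max (p d : ℕ) (hd : 1 ≤ d) (hp : ∃ (k : Type) (_ : Field k), CharP k p) :
    ∃ x, x ∈ allRates p d ∧ ∀ y ∈ allRates p d, y ≤ x := by
  classical
  obtain ⟨l, rfl⟩ : ∃ l, d = l + 1 := ⟨d - 1, by omega⟩
  have hbdd : ∀ y ∈ allRates p (l + 1), y ≤ bd l := by
    rintro y ⟨k, _, _, _, A, _, _, _, _, h, rfl⟩
    obtain ⟨c, hc⟩ := exists_ad (k := k) (A := A) l h
    have h3 := rate_pow_le (k := k) A 1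
    rw [pow_one] at h3
    exact h3.trans (by exact_mod_cast mdeg_one_le hc)
  have hne : (allRates p (l + 1)).Nonempty := by
    obtain ⟨k, _, _⟩ := hp
    have : CharP (AlgebraicClosure k) p := charP_of_injective_algebraMap
      (FaithfulSMul.algebraMap_injective k (AlgebraicClosure k)) p
    obtain ⟨A, _, _, c, hc⟩ := exists_local (AlgebraicClosure k) l
    exact ⟨_, AlgebraicClosure k, inferInstance, inferInstance, this, A, inferInstance,
      inferInstance, Module.Finite.of_basis c, hc.isLocal,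
      by rw [Module.finrank_eq_card_basis c, Fintype.card_fin], rfl⟩
  set s := sSup (allRates p (l + 1)) with hs
  have hB : BddAbove (allRates p (l + 1)) := ⟨bd l, hbdd⟩
  have hseq : ∀ i : ℕ, ∃ y ∈ allRates p (l + 1), s - 1 / ((i : ℝ) + 1) < y := by
    intro i
    exact exists_lt_of_lt_csSup hne (sub_lt_self _ (by positivity))
  choose y hy hlt using hseq
  choose K iF iC iP A iR iA iM iL hfr hr using hy
  have hb := fun i => exists_ad (k := K i) (A := A i) l (hfr i)
  choose c hc using hb
  let U : Ultrafilter ℕ := hyperfilter ℕ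
  have hchar : CharP (UK U K) p := by
    refine ⟨fun n => ?_⟩
    have h1 : ((n : ℕ) : UK U K) = mk U (K := K) ((n : ℕ) : PP K) :=
      (map_natCast (Ideal.Quotient.mk (UI U K)) n).symm
    have h0 : (0 : UK U K) = mk U (K := K) 0 := (map_zero _).symm
    rw [h1, h0, mk_eq]
    have h2 : ∀ i, ((n : ℕ) : PP K) i = (0 : PP K) i ↔ p ∣ n := by
      intro i
      have h4 : ((n : ℕ) : PP K) i = ((n : ℕ) : K i) := map_natCast (ev K i) n
      rw [h4]
      exact CharP.cast_eq_zero_iff (K i) p n
    simp only [h2]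
    exact ⟨fun h => h.exists.choose_spec, fun h => Eventually.of_forall fun _ => h⟩
  have hAd := BU_Ad c U hc
  have hfin' := Module.Finite.of_basis (BU c U).basis
  have hloc' := hAd.isLocal
  have hr' := one_le_rate (k := UK U K) (BU c U).carrier
  refine ⟨rate (UK U K) (BU c U).carrier, ⟨UK U K, inferInstance, inferInstance, hchar,
    (BU c U).carrier, inferInstance, inferInstance, hfin', hloc', ?_, rfl⟩, fun z hz => ?_⟩
  · rw [Module.finrank_eq_card_basis (BU c U).basis, Fintype.card_fin]
  · refine (le_csSup hB hz).trans ?_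
    refine le_of_forall_pos_le_add fun η hη => ?_
    obtain ⟨n, hn, W, hW1, hW2⟩ := one_cert (BU c U).basis hAd (η / 2) (by linarith) 1
    have h3 := BU_cert c U hW1
    obtain ⟨j, hj⟩ := exists_nat_one_div_lt (show (0 : ℝ) < η / 2 by linarith)
    have h4 : ∀ᶠ i in (U : Filter ℕ), j ≤ i := (Nat.hyperfilter_le_atTop) (eventually_ge_atTop j)
    obtain ⟨i, hi1, hi2⟩ := (h3.and h4).exists
    have h5 : rate (K i) (A i) ≤ rate (UK U K) (BU c U).carrier + η / 2 :=
      good_rate (c i) (hc i) hn (by linarith) ⟨W, hi1, hW2⟩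
    have h6 := hlt i
    rw [hr i] at h5
    have h7 : 1 / ((i : ℝ) + 1) ≤ 1 / ((j : ℝ) + 1) := by
      apply one_div_le_one_div_of_le (by positivity)
      have : (j : ℝ) ≤ i := by exact_mod_cast hi2
      linarith
    linarith

end Pool.Agent.K7.H10.GR
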